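import Pool.Agent.SrcFano.CaseA

open Polynomial

namespace Pool.Agent.SrcFano

lemma path_sum_step {S : Type*} [CommRing S] (m : ℕ) (u : Fin (m + 1) → S) (a b : ℕ) (q : S)
    (hb : 1 ≤ b) (k : ℕ) (hk : k + 1 < m + 1) (hu : u ⟨k, by omega⟩ = 0) :
    ∑ j : Fin m, ((if j.castSucc = ⟨k, by omega⟩ then u j.succ ^ a else 0)
        + (if j.succ = (⟨k, by omega⟩ : Fin (m + 1)) then q * u ⟨k, by omega⟩ ^ b
          * u j.castSucc else 0)) = u ⟨k + 1, hk⟩ ^ a := by
  rw [hu, zero_pow (by omega), mul_zero]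
  simp only [zero_mul, ite_self, add_zero]
  rw [Finset.sum_eq_single (⟨k, by omega⟩ : Fin m)]
  · simp
  · intro j _ hj
    rw [if_neg]
    intro h
    apply hj
    apply Fin.ext
    have := congrArg Fin.val h
    simpa using this
  · intro h
    exact absurd (Finset.mem_univ _) h

lemma path_sum_zero {S : Type*} [CommRing S] (m : ℕ) (u : Fin (m + 1) → S) (a b : ℕ) (q : S)
    (ha : 1 ≤ a) (hb : 1 ≤ b) (hu : ∀ j : Fin (m + 1), 1 ≤ (j : ℕ) → u j = 0)
    (k : Fin (m + 1)) :
    ∑ j : Fin m, ((if j.castSucc = k then u j.succ ^ a else 0)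
        + (if j.succ = k then q * u k ^ b
          * u j.castSucc else 0)) = 0 := by
  apply Finset.sum_eq_zero
  intro j _
  rw [hu j.succ (by simp), zero_pow (by omega)]
  by_cases h : j.succ = k
  · rw [← h, hu j.succ (by simp), zero_pow (by omega)]
    simp
  · simp [h]

lemma smoothB {K : Type*} [Field K] (d m : ℕ) (hd : 3 ≤ d) (h0 : (d : K) = 0) :
    IsSmoothHypersurface (polyB K d m) := by
  intro x hx hF
  by_contra hcon
  push Not at hcon
  have hc : ∀ i, MvPolynomial.aeval x (MvPolynomial.pderiv i (polyB K d m)) = 0 := by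
    intro i
    rw [← eval_eq_aeval]
    exact hcon i
  have hw : x (Sum.inl 1) = 0 := by
    have := hc (Sum.inl 2)
    rw [polyB_pd2 d m x hd, h0, zero_mul, add_zero] at this
    exact pow_eq_zero_iff (by omega) |>.1 this
  have hy : x (Sum.inr 0) = 0 := by
    have := hc (Sum.inl 0)
    rw [polyB_pd0 d m x hd, hw, zero_mul, zero_add] at this
    exact pow_eq_zero_iff (by omega) |>.1 this
  have hu : ∀ k : ℕ, ∀ hk : k < m + 1, x (Sum.inr ⟨k, hk⟩) = 0 := by
    intro k
    induction k with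
    | zero => intro hk; exact hy
    | succ k ih =>
      intro hk
      have := hc (Sum.inr ⟨k, by omega⟩)
      rw [polyB_pdr d m x ⟨k, by omega⟩, hw, hy,
        path_sum_step m (fun j => x (Sum.inr j)) (d - 1) (d - 2) _ (by omega) k hk (ih (by omega)),
        zero_pow (n := d - 2) (by omega)] at this
      have e1 : (if 1 ≤ ((⟨k, by omega⟩ : Fin (m + 1)) : ℕ) ∧
          ((⟨k, by omega⟩ : Fin (m + 1)) : ℕ) ≤ d - 3 then
        (0 : K) ^ (d - 1 - ((⟨k, by omega⟩ : Fin (m + 1)) : ℕ))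
          * 0 ^ (((⟨k, by omega⟩ : Fin (m + 1)) : ℕ)) else 0) = 0 := by
        split_ifs with h
        · rw [zero_pow (n := d - 1 - _) (by omega), zero_mul]
        · rfl
      have e2 : ∑ j : Fin (m + 1), (if 1 ≤ (j : ℕ) ∧ (j : ℕ) ≤ d - 3 then
        x (Sum.inr j) * (0 : K) ^ (d - 1 - (j : ℕ))
          * ((j : ℕ) * 0 ^ ((j : ℕ) - 1)) else 0) = 0 := by
        apply mid_sum_zero
        intro j h1 h2
        rw [zero_pow (n := d - 1 - (j : ℕ)) (by omega), mul_zero, zero_mul]
      rw [e1, e2] at this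
      simp only [mul_zero, ite_self, add_zero, zero_add] at this
      exact pow_eq_zero_iff (by omega) |>.1 this
  have hu' : ∀ k, x (Sum.inr k) = 0 := fun k => hu k k.2
  have hxx : x (Sum.inl 0) = 0 := by
    have := hc (Sum.inl 1)
    rw [polyB_pd1 d m x hd, hu' 0, hw] at this
    rw [mid_sum_zero d m _ (fun j h1 h2 => by rw [hu' j, zero_mul, zero_mul])] at this
    rw [zero_pow (n := d - 1) (by omega), zero_pow (n := d - 2) (by omega)] at this
    simp only [mul_zero, add_zero, zero_add] at this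
    exact pow_eq_zero_iff (by omega) |>.1 this
  have hz : x (Sum.inl 2) = 0 := by
    rw [eval_eq_aeval, polyB, midPoly] at hF
    simp only [map_add, map_mul, map_pow, MvPolynomial.aeval_X, hw, hxx, hu', map_sum,
      apply_ite (MvPolynomial.aeval x), map_zero, zero_mul, mul_zero, zero_add, ite_self,
      Finset.sum_const_zero, add_zero] at hF
    rw [zero_pow (by omega), mul_zero, zero_add] at hF
    exact pow_eq_zero_iff (by omega) |>.1 hF
  apply hx
  funext i
  rcases i with i | i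
  · fin_cases i
    · exact hxx
    · exact hw
    · exact hz
  · exact hu' i

lemma vfB {K : Type*} [Field K] (d m : ℕ) (hd : 3 ≤ d) (hm : d ≤ m + 3)
    (h0 : (d : K) = 0) :
    ∃ f, IsVeryFreeCurve (polyB K d m) d f := by
  have hd1 : ((d - 1 : ℕ) : K) = -1 := by
    rw [Nat.cast_sub (by omega), h0]
    simp
  have h0' : (d : K[X]) = 0 := by
    rw [← C_eq_natCast, h0, C_0]
  have hd1' : ((d - 1 : ℕ) : K[X]) = -1 := by
    rw [← C_eq_natCast, hd1, C_neg, C_1]
  obtain ⟨A, hAdef⟩ : ∃ A : K[X], A = X ^ (d - 1) + 1 := ⟨_, rfl⟩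
  have hA : A.natDegree = d - 1 := by
    rw [hAdef, ← C_1, natDegree_X_pow_add_C]
  have hA' : derivative A = -X ^ (d - 2) := by
    rw [hAdef, derivative_add, derivative_X_pow, hd1, derivative_one, C_neg, C_1,
      (by omega : d - 1 - 1 = d - 2)]
    ring
  have hAX : IsCoprime A (X : K[X]) := by
    refine ⟨1, -X ^ (d - 2), ?_⟩
    rw [hAdef]
    obtain ⟨e, rfl⟩ : ∃ e, d = e + 2 := ⟨d - 2, by omega⟩
    have e1 : e + 2 - 1 = e + 1 := by omega
    have e2 : e + 2 - 2 = e := by omega
    rw [e1, e2]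
    ring
  have hF0 : MvPolynomial.aeval (phiAB m A X) (polyB K d m) = 0 := by
    rw [polyB]
    simp only [map_add, map_mul, map_pow, MvPolynomial.aeval_X, midPoly_phi, phiAB_0, phiAB_1,
      phiAB_2, phiAB_r0, map_sum]
    rw [Finset.sum_eq_zero]
    · rw [zero_pow (by omega)]
      obtain ⟨e, rfl⟩ : ∃ e, d = e + 1 := ⟨d - 1, by omega⟩
      have e1 : e + 1 - 1 = e := by omega
      rw [e1] at hAdef ⊢
      have : A ^ e * X * (A - (X ^ e + 1)) = 0 := by
        rw [← hAdef]
        ring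
      linear_combination this
    · intro j _
      rw [phiAB_r m A X j.succ (by simp), zero_pow (by omega), zero_mul]
  refine ⟨_, veryFree_of_data (polyB K d m) d (polyB_hom K d m hd) _ _ _ A X (phiAB m A X)
    (fun i => rfl) hF0 ?_⟩
  have hphi := phiAB_deg m A X d (by omega) hA (by rw [natDegree_X]; omega)
  refine ⟨by omega, hA, by rw [natDegree_X]; omega, ?_, hAX,
    natDegree_aeval_pderiv _ d (polyB_hom K d m hd) _ hphi, ?_, ?_, ?_, ?_⟩
  · rw [hA']
    exact (hAX.pow_right).neg_right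
  · rw [sum_single_mul, polyB_pd0 d m _ hd, hd1', phiAB_0, phiAB_1, phiAB_r0, hA',
      derivative_X]
    obtain ⟨e, rfl⟩ : ∃ e, d = e + 2 := ⟨d - 2, by omega⟩
    have e1 : e + 2 - 1 = e + 1 := by omega
    have e2 : e + 2 - 2 = e := by omega
    rw [e1, e2]
    ring
  · rw [sum_single_mul, polyB_pdr d m _ 0, mid_sum_zero d m _ (fun j h1 h2 => by
      rw [phiAB_r m A X j h1, zero_mul, zero_mul]), hd1', phiAB_0, phiAB_1, phiAB_r0, hA',
      derivative_X]
    have e3 : ¬ (1 ≤ ((0 : Fin (m + 1)) : ℕ) ∧ ((0 : Fin (m + 1)) : ℕ) ≤ d - 3) := by simp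
    rw [if_neg e3]
    have e5 : ∑ j : Fin m, ((if j.castSucc = (0 : Fin (m + 1)) then
        phiAB m A X (Sum.inr j.succ) ^ (d - 1) else 0)
        + (if j.succ = (0 : Fin (m + 1)) then -1 * A ^ (d - 2)
          * phiAB m A X (Sum.inr j.castSucc) else 0)) = 0 := by
      apply Finset.sum_eq_zero
      intro j _
      rw [phiAB_r m A X j.succ (by simp), zero_pow (by omega)]
      have : ¬ (j.succ = (0 : Fin (m + 1))) := Fin.succ_ne_zero j
      simp [this]
    rw [e5]
    simp only [if_true]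
    have e6 : A * X - X * (A * 1 - -X ^ (d - 2) * X) = -(X * X ^ (d - 2) * X) := by ring
    rw [e6]
    have e7 : A = X ^ (d - 2) * X + 1 := by
      rw [hAdef, ← pow_succ, (by omega : d - 2 + 1 = d - 1)]
    have e8 : (-X + X * A) = X * (X ^ (d - 2) * X) := by
      rw [e7]; ring
    rw [e8]
    ring
  · rw [sum_single_mul, polyB_pd1 d m _ hd, mid_sum_zero d m _ (fun j h1 h2 => by
      rw [phiAB_r m A X j h1, zero_mul, zero_mul]), hd1', phiAB_0, phiAB_2, phiAB_r0]
    obtain ⟨e, rfl⟩ : ∃ e, d = e + 2 := ⟨d - 2, by omega⟩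
    have e1 : e + 2 - 1 = e + 1 := by omega
    have e2 : e + 2 - 2 = e := by omega
    rw [e1] at hAdef ⊢
    rw [e2]
    have : A ^ e * A ^ 2 = A ^ (e + 1) * (X ^ (e + 1) + 1) := by
      rw [← hAdef]; ring
    rw [this]
    ring
  · apply choose_dirs
    intro l hl
    rcases Nat.eq_zero_or_pos l with h | h
    · subst h
      refine ⟨Pi.single (Sum.inl 2) 1, (-X) ^ (d - 1), ?_, ?_, ?_⟩
      · exact (hAX.neg_right).pow_right
      · refine natDegree_pow_le.trans ?_
        rw [natDegree_neg, natDegree_X]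
        exact Nat.mul_le_mul_left _ (by omega)
      · rw [sum_single_mul, polyB_pd2 d m _ hd, h0', phiAB_1]
        ring
    · refine ⟨Pi.single (Sum.inr ⟨l, by omega⟩) 1, (-X) ^ (d - 1 - l), ?_, ?_, ?_⟩
      · exact (hAX.neg_right).pow_right
      · refine natDegree_pow_le.trans ?_
        rw [natDegree_neg, natDegree_X]
        exact Nat.mul_le_mul (by omega) (by omega)
      · have hne : (⟨l, by omega⟩ : Fin (m + 1)) ≠ 0 := by
          intro h1
          have := congrArg Fin.val h1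
          simp at this
          omega
        rw [sum_single_mul, polyB_pdr d m _ _, if_neg hne, if_neg hne,
          path_sum_zero m (fun j => phiAB m A X (Sum.inr j)) (d - 1) (d - 2) _ (by omega) (by omega)
          (fun j hj => phiAB_r m A X j hj) ⟨l, by omega⟩, phiAB_r0, phiAB_1,
          if_pos ⟨h, by show l ≤ d - 3; omega⟩]
        ring

lemma goodB (p : ℕ) [Fact p.Prime] (d m : ℕ) (hd : 3 ≤ d) (hm : d ≤ m + 3) (h : p ∣ d) :
    Good p (Fin 3 ⊕ Fin (m + 1)) d := by
  have h0 : (d : AlgebraicClosure (ZMod p)) = 0 := by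
    rw [← map_natCast (algebraMap (ZMod p) (AlgebraicClosure (ZMod p))),
      (ZMod.natCast_eq_zero_iff _ _).2 h, map_zero]
  refine ⟨polyB (ZMod p) d m, polyB_hom _ d m hd, ?_, d, ?_⟩
  · rw [polyB_map]
    exact smoothB d m hd h0
  · rw [polyB_map]
    exact vfB d m hd hm h0

end Pool.Agent.SrcFano
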