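import Pool.Agent.SrcFano.PolyC

open Polynomial

namespace Pool.Agent.SrcFano

/-! ### degree one -/

lemma goodOne (p : ℕ) [Fact p.Prime] (m : ℕ) : Good p (Fin 3 ⊕ Fin m) 1 := by
  set K := AlgebraicClosure (ZMod p) with hK
  refine ⟨MvPolynomial.X (Sum.inl 0), MvPolynomial.isHomogeneous_X _ _, ?_, 1,
    Sum.elim ![0, MvPolynomial.X 0, MvPolynomial.X 1] (fun _ => 0), le_rfl, ?_, ?_, ?_, ?_⟩
  · rw [MvPolynomial.map_X]
    intro x _ _
    exact ⟨Sum.inl 0, by simp⟩
  · intro i
    rcases i with i | i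
    · fin_cases i
      · exact MvPolynomial.isHomogeneous_zero _ _ _
      · exact MvPolynomial.isHomogeneous_X _ _
      · exact MvPolynomial.isHomogeneous_X _ _
    · exact MvPolynomial.isHomogeneous_zero _ _ _
  · intro P hP
    by_contra hcon
    push Not at hcon
    apply hP
    funext i
    fin_cases i
    · have := hcon (Sum.inl 1)
      simpa using this
    · have := hcon (Sum.inl 2)
      simpa using this
  · rw [MvPolynomial.map_X, MvPolynomial.aeval_X]
    simp
  · intro P hP v hv
    rw [MvPolynomial.map_X] at hv ⊢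
    have hD : ∀ i : Fin 3 ⊕ Fin m, MvPolynomial.pderiv i
        (MvPolynomial.X (R := K) (Sum.inl 0 : Fin 3 ⊕ Fin m)) = if i = Sum.inl 0 then 1 else 0 := by
      intro i
      rw [MvPolynomial.pderiv_X, Pi.single_apply]
      simp only [eq_comm]
    simp_rw [hD] at hv ⊢
    simp only [apply_ite (MvPolynomial.aeval _), map_one, map_zero,
      apply_ite (MvPolynomial.eval P), ite_mul, one_mul, zero_mul, Finset.sum_ite_eq',
      Finset.mem_univ, if_true] at hv
    refine ⟨fun i => MvPolynomial.C (v i), 0, fun i => MvPolynomial.isHomogeneous_C _ _, ?_, ?_⟩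
    · simp only [apply_ite (MvPolynomial.aeval _), map_one, map_zero, ite_mul, one_mul, zero_mul,
        Finset.sum_ite_eq', Finset.mem_univ, if_true, hv]
    · intro i
      simp

/-! ### degree two -/

open MvPolynomial in
noncomputable def polyQ (R : Type*) [CommRing R] (m : ℕ) :
    MvPolynomial (Fin 2 ⊕ Fin (m + 1)) R :=
  X (Sum.inl 1) * X (Sum.inl 0) + ∑ j : Fin (m + 1), X (Sum.inr j) ^ (1 + 1)

open MvPolynomial in
noncomputable def polyE (R : Type*) [CommRing R] (m : ℕ) :
    MvPolynomial (Fin 2 ⊕ Fin (m + 1)) R :=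
  X (Sum.inl 1) * X (Sum.inl 0) + X (Sum.inr 0) ^ 2
    + ∑ j : Fin m, X (Sum.inr j.succ) * X (Sum.inr j.castSucc)

lemma polyQ_map {R S : Type*} [CommRing R] [CommRing S] (f : R →+* S) (m : ℕ) :
    (polyQ R m).map f = polyQ S m := by
  rw [polyQ, polyQ]
  simp

lemma polyE_map {R S : Type*} [CommRing R] [CommRing S] (f : R →+* S) (m : ℕ) :
    (polyE R m).map f = polyE S m := by
  rw [polyE, polyE]
  simp

lemma polyQ_hom (R : Type*) [CommRing R] (m : ℕ) : (polyQ R m).IsHomogeneous 2 := by
  rw [polyQ]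
  refine MvPolynomial.IsHomogeneous.add ?_ ?_
  · exact (MvPolynomial.isHomogeneous_X R _).mul (MvPolynomial.isHomogeneous_X R _)
  · apply MvPolynomial.IsHomogeneous.sum
    intro j _
    exact hom_pow _ _

lemma polyE_hom (R : Type*) [CommRing R] (m : ℕ) : (polyE R m).IsHomogeneous 2 := by
  rw [polyE]
  refine MvPolynomial.IsHomogeneous.add (MvPolynomial.IsHomogeneous.add ?_ ?_) ?_
  · exact (MvPolynomial.isHomogeneous_X R _).mul (MvPolynomial.isHomogeneous_X R _)
  · exact hom_pow _ _
  · apply MvPolynomial.IsHomogeneous.sum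
    intro j _
    exact (MvPolynomial.isHomogeneous_X R _).mul (MvPolynomial.isHomogeneous_X R _)

section

variable {R : Type*} [CommRing R] {S : Type*} [CommRing S] [Algebra R S] (m : ℕ)
  (φ : Fin 2 ⊕ Fin (m + 1) → S)

lemma polyQ_pd0 : MvPolynomial.aeval φ (MvPolynomial.pderiv (Sum.inl 0) (polyQ R m))
    = φ (Sum.inl 1) := by
  rw [polyQ, map_add, pderiv_sum_pow_zero (fun i => Sum.inr i) _ (fun i h => by simp at h)]
  simp [Derivation.leibniz, MvPolynomial.pderiv_X]

lemma polyQ_pd1 : MvPolynomial.aeval φ (MvPolynomial.pderiv (Sum.inl 1) (polyQ R m))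
    = φ (Sum.inl 0) := by
  rw [polyQ, map_add, pderiv_sum_pow_zero (fun i => Sum.inr i) _ (fun i h => by simp at h)]
  simp [Derivation.leibniz, MvPolynomial.pderiv_X]

lemma polyQ_pdr (k : Fin (m + 1)) :
    MvPolynomial.aeval φ (MvPolynomial.pderiv (Sum.inr k) (polyQ R m))
    = 2 * φ (Sum.inr k) := by
  rw [polyQ, map_add, pderiv_sum_pow (fun i => Sum.inr i) (fun a b h => by simpa using h) k]
  simp [Derivation.leibniz, MvPolynomial.pderiv_X]
  norm_num

lemma polyE_pd0 : MvPolynomial.aeval φ (MvPolynomial.pderiv (Sum.inl 0) (polyE R m))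
    = φ (Sum.inl 1) := by
  rw [polyE]
  simp only [map_add, map_sum, Derivation.leibniz, Derivation.leibniz_pow, MvPolynomial.pderiv_X]
  simp

lemma polyE_pd1 : MvPolynomial.aeval φ (MvPolynomial.pderiv (Sum.inl 1) (polyE R m))
    = φ (Sum.inl 0) := by
  rw [polyE]
  simp only [map_add, map_sum, Derivation.leibniz, Derivation.leibniz_pow, MvPolynomial.pderiv_X]
  simp

lemma polyE_pdr (k : Fin (m + 1)) :
    MvPolynomial.aeval φ (MvPolynomial.pderiv (Sum.inr k) (polyE R m))
    = (if k = 0 then 2 * φ (Sum.inr 0) else 0)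
      + ∑ j : Fin m, ((if j.castSucc = k then φ (Sum.inr j.succ) else 0)
        + (if j.succ = k then φ (Sum.inr j.castSucc) else 0)) := by
  rw [polyE]
  rw [map_add, map_add, map_add, map_add]
  have h1 : MvPolynomial.aeval φ (MvPolynomial.pderiv (Sum.inr k)
      (∑ j : Fin m, MvPolynomial.X (R := R) (Sum.inr j.succ : Fin 2 ⊕ Fin (m + 1))
        * MvPolynomial.X (Sum.inr j.castSucc)))
      = ∑ j : Fin m, ((if j.castSucc = k then φ (Sum.inr j.succ) else 0)
        + (if j.succ = k then φ (Sum.inr j.castSucc) else 0)) := by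
    rw [map_sum, map_sum]
    apply Finset.sum_congr rfl
    intro j _
    by_cases h2 : j.castSucc = k
    · by_cases h3 : j.succ = k
      · exfalso
        have := h2.trans h3.symm
        rw [Fin.ext_iff] at this
        simp at this
      · simp [Derivation.leibniz, MvPolynomial.pderiv_X, Pi.single_apply, h2, h3]
    · by_cases h3 : j.succ = k
      · simp [Derivation.leibniz, MvPolynomial.pderiv_X, Pi.single_apply, h2, h3]
      · simp [Derivation.leibniz, MvPolynomial.pderiv_X, Pi.single_apply, h2, h3]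
  rw [h1]
  congr 1
  by_cases hk : k = 0
  · subst hk
    simp [Derivation.leibniz, Derivation.leibniz_pow, MvPolynomial.pderiv_X]
  · have h3 : ¬ (0 : Fin (m + 1)) = k := fun h => hk h.symm
    simp [Derivation.leibniz, Derivation.leibniz_pow, MvPolynomial.pderiv_X, Pi.single_apply, h3, hk]

end

lemma smoothQ {K : Type*} [Field K] (m : ℕ) (h2 : (2 : K) ≠ 0) :
    IsSmoothHypersurface (polyQ K m) := by
  intro x hx _
  by_contra hcon
  push Not at hcon
  have hc : ∀ i, MvPolynomial.aeval x (MvPolynomial.pderiv i (polyQ K m)) = 0 := by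
    intro i
    rw [← eval_eq_aeval]
    exact hcon i
  apply hx
  funext i
  rcases i with i | i
  · fin_cases i
    · have := hc (Sum.inl 1)
      rwa [polyQ_pd1] at this
    · have := hc (Sum.inl 0)
      rwa [polyQ_pd0] at this
  · have := hc (Sum.inr i)
    rw [polyQ_pdr] at this
    rcases mul_eq_zero.1 this with h | h
    · exact absurd h h2
    · exact h

lemma smoothE {K : Type*} [Field K] (m : ℕ) (h2 : (2 : K) = 0) :
    IsSmoothHypersurface (polyE K m) := by
  intro x hx hF
  by_contra hcon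
  push Not at hcon
  have hc : ∀ i, MvPolynomial.aeval x (MvPolynomial.pderiv i (polyE K m)) = 0 := by
    intro i
    rw [← eval_eq_aeval]
    exact hcon i
  have hx0 : x (Sum.inl 0) = 0 := by
    have := hc (Sum.inl 1)
    rwa [polyE_pd1] at this
  have hx1 : x (Sum.inl 1) = 0 := by
    have := hc (Sum.inl 0)
    rwa [polyE_pd0] at this
  have hstep : ∀ k : ℕ, ∀ hk : k + 2 < m + 1, x (Sum.inr ⟨k, by omega⟩) = 0 →
      x (Sum.inr ⟨k + 2, hk⟩) = 0 := by
    intro k hk h0
    have := hc (Sum.inr ⟨k + 1, by omega⟩)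
    rw [polyE_pdr, if_neg (by
      intro h
      have := congrArg Fin.val h
      simp at this), zero_add, Finset.sum_add_distrib] at this
    rw [Finset.sum_eq_single (⟨k + 1, by omega⟩ : Fin m), Finset.sum_eq_single (⟨k, by omega⟩ : Fin m)]
      at this
    · have e1 : (⟨k + 1, by omega⟩ : Fin m).castSucc = (⟨k + 1, by omega⟩ : Fin (m + 1)) := rfl
      have e2 : (⟨k, by omega⟩ : Fin m).succ = (⟨k + 1, by omega⟩ : Fin (m + 1)) := rfl
      rw [if_pos e1, if_pos e2] at this
      have e3 : (⟨k, by omega⟩ : Fin m).castSucc = (⟨k, by omega⟩ : Fin (m + 1)) := rfl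
      have e4 : (⟨k + 1, by omega⟩ : Fin m).succ = (⟨k + 2, by omega⟩ : Fin (m + 1)) := rfl
      rw [e3, e4, h0, add_zero] at this
      exact this
    · intro j _ hj
      rw [if_neg]
      intro h
      apply hj
      apply Fin.ext
      have := congrArg Fin.val h
      simp at this
      exact this
    · intro h
      exact absurd (Finset.mem_univ _) h
    · intro j _ hj
      rw [if_neg]
      intro h
      apply hj
      apply Fin.ext
      have := congrArg Fin.val h
      simp at this
      exact this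
    · intro h
      exact absurd (Finset.mem_univ _) h
  have hodd : ∀ i : ℕ, ∀ hk : 2 * i + 1 < m + 1, x (Sum.inr ⟨2 * i + 1, hk⟩) = 0 := by
    intro i
    induction i with
    | zero =>
      intro hk
      have := hc (Sum.inr 0)
      rw [polyE_pdr, if_pos rfl, h2, zero_mul, zero_add, Finset.sum_eq_single (⟨0, by omega⟩ : Fin m)]
        at this
      · have e1 : (⟨0, by omega⟩ : Fin m).castSucc = (0 : Fin (m + 1)) := rfl
        have e2 : ¬ (⟨0, by omega⟩ : Fin m).succ = (0 : Fin (m + 1)) := Fin.succ_ne_zero _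
        rw [if_pos e1, if_neg e2, add_zero] at this
        exact this
      · intro j _ hj
        rw [if_neg, if_neg (Fin.succ_ne_zero _), add_zero]
        intro h
        apply hj
        apply Fin.ext
        have := congrArg Fin.val h
        simpa using this
      · intro h
        exact absurd (Finset.mem_univ _) h
    | succ i ih =>
      intro hk
      exact hstep (2 * i + 1) (by omega) (ih (by omega))
  have hodd' : ∀ k : ℕ, k % 2 = 1 → ∀ hk : k < m + 1, x (Sum.inr ⟨k, hk⟩) = 0 := by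
    intro k hk hk'
    have h := hodd (k / 2) (by omega)
    have e : (⟨2 * (k / 2) + 1, by omega⟩ : Fin (m + 1)) = ⟨k, hk'⟩ := by
      apply Fin.ext
      show 2 * (k / 2) + 1 = k
      omega
    rwa [e] at h
  have hu0 : x (Sum.inr 0) = 0 := by
    rw [eval_eq_aeval, polyE] at hF
    simp only [map_add, map_mul, map_pow, MvPolynomial.aeval_X, map_sum, hx0, hx1, mul_zero,
      zero_add] at hF
    rw [Finset.sum_eq_zero, add_zero] at hF
    · exact pow_eq_zero_iff (by omega) |>.1 hF
    · intro j _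
      rcases Nat.mod_two_eq_zero_or_one (j : ℕ) with h | h
      · have : x (Sum.inr j.succ) = 0 := by
          have h3 := hodd' ((j : ℕ) + 1) (by omega) (by omega)
          exact h3
        rw [this, zero_mul]
      · have : x (Sum.inr j.castSucc) = 0 := by
          have h3 := hodd' (j : ℕ) (by omega) (by omega)
          exact h3
        rw [this, mul_zero]
  have heven : ∀ i : ℕ, ∀ hk : 2 * i < m + 1, x (Sum.inr ⟨2 * i, hk⟩) = 0 := by
    intro i
    induction i with
    | zero =>
      intro hk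
      exact hu0
    | succ i ih =>
      intro hk
      exact hstep (2 * i) (by omega) (ih (by omega))
  apply hx
  funext i
  rcases i with i | i
  · fin_cases i
    · exact hx0
    · exact hx1
  · rcases Nat.mod_two_eq_zero_or_one (i : ℕ) with h | h
    · have h3 := heven ((i : ℕ) / 2) (by omega)
      have e : (⟨2 * ((i : ℕ) / 2), by omega⟩ : Fin (m + 1)) = i := by
        apply Fin.ext
        show 2 * ((i : ℕ) / 2) = i
        omega
      rwa [e] at h3
    · exact hodd' i h i.2

noncomputable def phiQ {K : Type*} [Field K] (m : ℕ) : Fin 2 ⊕ Fin (m + 1) → K[X] :=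
  fun i => C ((Pi.single (Sum.inl 0) (1 : K) : Fin 2 ⊕ Fin (m + 1) → K) i) * (X * X)
    + C ((Pi.single (Sum.inr 0) (1 : K) : Fin 2 ⊕ Fin (m + 1) → K) i) * X
    - C ((Pi.single (Sum.inl 1) (1 : K) : Fin 2 ⊕ Fin (m + 1) → K) i) * 1

section phi

variable {K : Type*} [Field K] (m : ℕ)

lemma phiQ_0 : phiQ (K := K) m (Sum.inl 0) = X * X := by simp [phiQ]
lemma phiQ_1 : phiQ (K := K) m (Sum.inl 1) = -1 := by simp [phiQ]
lemma phiQ_r0 : phiQ (K := K) m (Sum.inr 0) = X := by simp [phiQ]
lemma phiQ_r (j : Fin (m + 1)) (hj : j ≠ 0) : phiQ (K := K) m (Sum.inr j) = 0 := by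
  simp [phiQ, hj]

lemma phiQ_deg (i : Fin 2 ⊕ Fin (m + 1)) : (phiQ (K := K) m i).natDegree ≤ 2 := by
  rw [phiQ]
  refine (natDegree_sub_le _ _).trans (max_le ?_ ?_)
  · refine (natDegree_add_le _ _).trans (max_le ?_ ?_)
    · refine natDegree_mul_le.trans ?_
      rw [natDegree_C, zero_add]
      refine natDegree_mul_le.trans ?_
      rw [natDegree_X]
    · refine natDegree_mul_le.trans ?_
      rw [natDegree_C, zero_add, natDegree_X]
      omega
  · refine natDegree_mul_le.trans ?_
    rw [natDegree_C, zero_add, natDegree_one]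
    omega

end phi

lemma vfQuad {K : Type*} [Field K] (m : ℕ) (F : MvPolynomial (Fin 2 ⊕ Fin (m + 1)) K)
    (hF : F.IsHomogeneous 2) (hF0 : MvPolynomial.aeval (phiQ (K := K) m) F = 0)
    (h0 : MvPolynomial.aeval (phiQ (K := K) m) (MvPolynomial.pderiv (Sum.inl 0) F) = phiQ (K := K) m (Sum.inl 1))
    (h1 : MvPolynomial.aeval (phiQ (K := K) m) (MvPolynomial.pderiv (Sum.inl 1) F) = phiQ (K := K) m (Sum.inl 0))
    (h2 : MvPolynomial.aeval (phiQ (K := K) m) (MvPolynomial.pderiv (Sum.inr 0) F)
      = 2 * phiQ (K := K) m (Sum.inr 0)) :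
    ∃ f, IsVeryFreeCurve F 2 f := by
  refine ⟨_, veryFree_of_data F 2 hF _ _ _ X 1 (phiQ (K := K) m) (fun i => rfl) hF0 ?_⟩
  refine ⟨le_rfl, by simp, by simp, by simp [isCoprime_one_right], isCoprime_one_right,
    natDegree_aeval_pderiv _ 2 hF _ (phiQ_deg m), ?_, ?_, ?_, ?_⟩
  · rw [sum_single_mul, h0, phiQ_1]
    simp
  · rw [sum_single_mul, h2, phiQ_r0]
    simp
    ring
  · rw [sum_single_mul, h1, phiQ_0]
    simp
    ring
  · refine ⟨fun _ _ => 0, fun _ => 0, fun l hl => ?_⟩
    omega

lemma vfQ {K : Type*} [Field K] (m : ℕ) : ∃ f, IsVeryFreeCurve (polyQ K m) 2 f := by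
  apply vfQuad m _ (polyQ_hom K m)
  · rw [polyQ]
    simp only [map_add, map_mul, map_pow, MvPolynomial.aeval_X, map_sum, phiQ_0, phiQ_1]
    rw [Finset.sum_eq_single (0 : Fin (m + 1)), phiQ_r0]
    · ring
    · intro j _ hj
      rw [phiQ_r m j hj]
      ring
    · intro h
      exact absurd (Finset.mem_univ _) h
  · exact polyQ_pd0 m _
  · exact polyQ_pd1 m _
  · exact polyQ_pdr m _ 0

lemma vfE {K : Type*} [Field K] (m : ℕ) : ∃ f, IsVeryFreeCurve (polyE K m) 2 f := by
  have hs : ∀ j : Fin m, phiQ (K := K) m (Sum.inr j.succ) = 0 := fun j =>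
    phiQ_r m _ (Fin.succ_ne_zero j)
  apply vfQuad m _ (polyE_hom K m)
  · rw [polyE]
    simp only [map_add, map_mul, map_pow, MvPolynomial.aeval_X, map_sum, phiQ_0, phiQ_1, phiQ_r0,
      hs, zero_mul, Finset.sum_const_zero]
    ring
  · exact polyE_pd0 m _
  · exact polyE_pd1 m _
  · rw [polyE_pdr m _ 0]
    simp [hs, Fin.succ_ne_zero]

lemma goodTwo (p : ℕ) [Fact p.Prime] (m : ℕ) : Good p (Fin 2 ⊕ Fin (m + 1)) 2 := by
  by_cases h2 : (2 : AlgebraicClosure (ZMod p)) = 0
  · refine ⟨polyE (ZMod p) m, polyE_hom _ m, ?_, 2, ?_⟩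
    · rw [polyE_map]
      exact smoothE m h2
    · rw [polyE_map]
      exact vfE m
  · refine ⟨polyQ (ZMod p) m, polyQ_hom _ m, ?_, 2, ?_⟩
    · rw [polyQ_map]
      exact smoothQ m h2
    · rw [polyQ_map]
      exact vfQ m

end Pool.Agent.SrcFano
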