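import Pool.Agent.SrcFano.Defs

open Polynomial

namespace Pool.Agent.SrcFano

section CaseAB

open MvPolynomial in
/-- the common part of the two families -/
noncomputable def midPoly (R : Type*) [CommRing R] (d m : ℕ) :
    MvPolynomial (Fin 3 ⊕ Fin (m + 1)) R :=
  ∑ j : Fin (m + 1), if 1 ≤ (j : ℕ) ∧ (j : ℕ) ≤ d - 3 then
    X (Sum.inr j) * X (Sum.inl 1) ^ (d - 1 - (j : ℕ)) * X (Sum.inr 0) ^ (j : ℕ) else 0

open MvPolynomial in
noncomputable def polyA (R : Type*) [CommRing R] (d m : ℕ) :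
    MvPolynomial (Fin 3 ⊕ Fin (m + 1)) R :=
  X (Sum.inl 2) * X (Sum.inl 1) ^ (d - 1)
    + X (Sum.inl 1) * (X (Sum.inl 0) ^ (d - 1) + X (Sum.inl 0) * X (Sum.inr 0) ^ (d - 2))
    + ∑ j : Fin (m + 1), X (Sum.inr j) ^ d
    + X (Sum.inl 2) ^ (d - 1) * X (Sum.inl 0)
    + midPoly R d m

open MvPolynomial in
noncomputable def polyB (R : Type*) [CommRing R] (d m : ℕ) :
    MvPolynomial (Fin 3 ⊕ Fin (m + 1)) R :=
  X (Sum.inl 2) * X (Sum.inl 1) ^ (d - 1)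
    + X (Sum.inl 1) * (X (Sum.inl 0) ^ (d - 1) + X (Sum.inr 0) ^ (d - 1))
    + X (Sum.inl 0) * X (Sum.inr 0) ^ (d - 1)
    + ∑ j : Fin m, X (Sum.inr j.succ) ^ (d - 1) * X (Sum.inr j.castSucc)
    + X (Sum.inl 2) ^ d
    + midPoly R d m

variable {R : Type*} [CommRing R] {S : Type*} [CommRing S] [Algebra R S] (d m : ℕ)
  (φ : Fin 3 ⊕ Fin (m + 1) → S)

lemma midPoly_pd0 : MvPolynomial.aeval φ (MvPolynomial.pderiv (Sum.inl 0) (midPoly R d m)) = 0 := by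
  rw [midPoly, map_sum, map_sum]
  apply Finset.sum_eq_zero
  intro j _
  split_ifs
  · simp [Derivation.leibniz, Derivation.leibniz_pow, MvPolynomial.pderiv_X]
  · simp

lemma midPoly_pd2 : MvPolynomial.aeval φ (MvPolynomial.pderiv (Sum.inl 2) (midPoly R d m)) = 0 := by
  rw [midPoly, map_sum, map_sum]
  apply Finset.sum_eq_zero
  intro j _
  split_ifs
  · simp [Derivation.leibniz, Derivation.leibniz_pow, MvPolynomial.pderiv_X]
  · simp

lemma midPoly_pd1 : MvPolynomial.aeval φ (MvPolynomial.pderiv (Sum.inl 1) (midPoly R d m))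
    = ∑ j : Fin (m + 1), if 1 ≤ (j : ℕ) ∧ (j : ℕ) ≤ d - 3 then
      φ (Sum.inr j) * ((d - 1 - (j : ℕ) : ℕ) * φ (Sum.inl 1) ^ (d - 1 - (j : ℕ) - 1))
        * φ (Sum.inr 0) ^ (j : ℕ) else 0 := by
  rw [midPoly, map_sum, map_sum]
  apply Finset.sum_congr rfl
  intro j _
  split_ifs
  · simp [Derivation.leibniz, Derivation.leibniz_pow, MvPolynomial.pderiv_X]
    ring
  · simp

lemma term_pdr (j k : Fin (m + 1)) (a b : ℕ) :
    MvPolynomial.aeval φ (MvPolynomial.pderiv (Sum.inr k)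
      (MvPolynomial.X (R := R) (Sum.inr j) * MvPolynomial.X (Sum.inl 1) ^ a
        * MvPolynomial.X (Sum.inr 0) ^ b))
    = (if j = k then φ (Sum.inl 1) ^ a * φ (Sum.inr 0) ^ b else 0)
      + (if k = 0 then φ (Sum.inr j) * φ (Sum.inl 1) ^ a * (b * φ (Sum.inr 0) ^ (b - 1)) else 0) := by
  simp only [Derivation.leibniz, Derivation.leibniz_pow, MvPolynomial.pderiv_X, Pi.single_apply,
    Sum.inr.injEq, reduceCtorEq, if_false, smul_eq_mul, mul_ite, mul_zero, mul_one, map_add,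
    map_mul, map_pow, MvPolynomial.aeval_X, smul_zero, add_zero, nsmul_eq_mul, map_natCast,
    apply_ite (MvPolynomial.aeval φ), map_zero]
  by_cases h1 : j = k
  · by_cases h2 : k = 0
    · simp [h1, h2]; ring
    · have h3 : ¬ (0 : Fin (m + 1)) = k := fun h => h2 h.symm
      simp [h1, h2, h3]; ring
  · by_cases h2 : k = 0
    · subst h2
      simp [h1, mul_assoc, mul_comm, mul_left_comm]
    · have h3 : ¬ (0 : Fin (m + 1)) = k := fun h => h2 h.symm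
      simp [h1, h2, h3]

lemma midPoly_pdr (k : Fin (m + 1)) :
    MvPolynomial.aeval φ (MvPolynomial.pderiv (Sum.inr k) (midPoly R d m))
    = (if 1 ≤ (k : ℕ) ∧ (k : ℕ) ≤ d - 3 then
        φ (Sum.inl 1) ^ (d - 1 - (k : ℕ)) * φ (Sum.inr 0) ^ (k : ℕ) else 0)
      + (if k = 0 then ∑ j : Fin (m + 1), (if 1 ≤ (j : ℕ) ∧ (j : ℕ) ≤ d - 3 then
      φ (Sum.inr j) * φ (Sum.inl 1) ^ (d - 1 - (j : ℕ))
        * ((j : ℕ) * φ (Sum.inr 0) ^ ((j : ℕ) - 1)) else 0) else 0) := by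
  rw [midPoly, map_sum, map_sum]
  have h : ∀ j : Fin (m + 1), MvPolynomial.aeval φ (MvPolynomial.pderiv (Sum.inr k)
      (if 1 ≤ (j : ℕ) ∧ (j : ℕ) ≤ d - 3 then
      MvPolynomial.X (R := R) (Sum.inr j) * MvPolynomial.X (Sum.inl 1) ^ (d - 1 - (j : ℕ))
        * MvPolynomial.X (Sum.inr 0) ^ (j : ℕ) else 0))
      = (if j = k then (if 1 ≤ (j : ℕ) ∧ (j : ℕ) ≤ d - 3 then
        φ (Sum.inl 1) ^ (d - 1 - (j : ℕ)) * φ (Sum.inr 0) ^ (j : ℕ) else 0) else 0)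
      + (if k = 0 then (if 1 ≤ (j : ℕ) ∧ (j : ℕ) ≤ d - 3 then
      φ (Sum.inr j) * φ (Sum.inl 1) ^ (d - 1 - (j : ℕ))
        * ((j : ℕ) * φ (Sum.inr 0) ^ ((j : ℕ) - 1)) else 0) else 0) := by
    intro j
    by_cases hj : 1 ≤ (j : ℕ) ∧ (j : ℕ) ≤ d - 3
    · simp only [hj, and_self, if_true]
      rw [term_pdr]
    · simp [hj]
  simp_rw [h]
  rw [Finset.sum_add_distrib, Finset.sum_ite_eq' Finset.univ k]
  by_cases hk : k = 0
  · simp [hk]
  · simp [hk]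


lemma polyA_pd0 (hd : 3 ≤ d) :
    MvPolynomial.aeval φ (MvPolynomial.pderiv (Sum.inl 0) (polyA R d m))
    = φ (Sum.inl 1) * (((d - 1 : ℕ) : S) * φ (Sum.inl 0) ^ (d - 2) + φ (Sum.inr 0) ^ (d - 2))
      + φ (Sum.inl 2) ^ (d - 1) := by
  have h1 : d - 1 - 1 = d - 2 := by omega
  rw [polyA]
  simp only [map_add, midPoly_pd0, Derivation.leibniz, Derivation.leibniz_pow, map_sum,
    MvPolynomial.pderiv_X]
  simp [h1]

lemma polyA_pd1 (hd : 3 ≤ d) :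
    MvPolynomial.aeval φ (MvPolynomial.pderiv (Sum.inl 1) (polyA R d m))
    = φ (Sum.inl 2) * (((d - 1 : ℕ) : S) * φ (Sum.inl 1) ^ (d - 2))
      + (φ (Sum.inl 0) ^ (d - 1) + φ (Sum.inl 0) * φ (Sum.inr 0) ^ (d - 2))
      + ∑ j : Fin (m + 1), (if 1 ≤ (j : ℕ) ∧ (j : ℕ) ≤ d - 3 then
      φ (Sum.inr j) * ((d - 1 - (j : ℕ) : ℕ) * φ (Sum.inl 1) ^ (d - 1 - (j : ℕ) - 1))
        * φ (Sum.inr 0) ^ (j : ℕ) else 0) := by
  have h1 : d - 1 - 1 = d - 2 := by omega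
  rw [polyA]
  simp only [map_add, midPoly_pd1, Derivation.leibniz, Derivation.leibniz_pow, map_sum,
    MvPolynomial.pderiv_X]
  simp [h1]

lemma polyA_pd2 (hd : 3 ≤ d) :
    MvPolynomial.aeval φ (MvPolynomial.pderiv (Sum.inl 2) (polyA R d m))
    = φ (Sum.inl 1) ^ (d - 1) + ((d - 1 : ℕ) : S) * φ (Sum.inl 2) ^ (d - 2) * φ (Sum.inl 0) := by
  have h1 : d - 1 - 1 = d - 2 := by omega
  rw [polyA]
  simp only [map_add, midPoly_pd2, Derivation.leibniz, Derivation.leibniz_pow, map_sum,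
    MvPolynomial.pderiv_X]
  simp [h1]
  ring

lemma sumpow_pdr (k : Fin (m + 1)) :
    MvPolynomial.aeval φ (MvPolynomial.pderiv (Sum.inr k)
      (∑ j : Fin (m + 1), MvPolynomial.X (R := R) (Sum.inr j) ^ d))
    = (d : S) * φ (Sum.inr k) ^ (d - 1) := by
  rw [map_sum, map_sum, Finset.sum_eq_single k]
  · simp [Derivation.leibniz_pow]
  · intro j _ hj
    simp [Derivation.leibniz_pow, MvPolynomial.pderiv_X, Pi.single_apply, hj]
  · intro h
    exact absurd (Finset.mem_univ k) h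

lemma path_pdr (k : Fin (m + 1)) :
    MvPolynomial.aeval φ (MvPolynomial.pderiv (Sum.inr k)
      (∑ j : Fin m, MvPolynomial.X (R := R) (Sum.inr j.succ) ^ (d - 1)
        * MvPolynomial.X (Sum.inr j.castSucc)))
    = ∑ j : Fin m, ((if j.castSucc = k then φ (Sum.inr j.succ) ^ (d - 1) else 0)
        + (if j.succ = k then ((d - 1 : ℕ) : S) * φ (Sum.inr k) ^ (d - 2)
          * φ (Sum.inr j.castSucc) else 0)) := by
  have h1 : d - 1 - 1 = d - 2 := by omega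
  rw [map_sum, map_sum]
  apply Finset.sum_congr rfl
  intro j _
  by_cases h2 : j.castSucc = k
  · by_cases h3 : j.succ = k
    · exfalso
      have := h2.trans h3.symm
      rw [Fin.ext_iff] at this
      simp at this
    · simp [Derivation.leibniz, Derivation.leibniz_pow, MvPolynomial.pderiv_X, Pi.single_apply,
        h2, h3]
  · by_cases h3 : j.succ = k
    · simp [Derivation.leibniz, Derivation.leibniz_pow, MvPolynomial.pderiv_X, Pi.single_apply,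
        h2, h3, h1]
      ring
    · simp [Derivation.leibniz, Derivation.leibniz_pow, MvPolynomial.pderiv_X, Pi.single_apply,
        h2, h3]

lemma polyA_pdr (k : Fin (m + 1)) :
    MvPolynomial.aeval φ (MvPolynomial.pderiv (Sum.inr k) (polyA R d m))
    = (d : S) * φ (Sum.inr k) ^ (d - 1)
      + (if k = 0 then φ (Sum.inl 1) * (φ (Sum.inl 0) * (((d - 2 : ℕ) : S)
        * φ (Sum.inr 0) ^ (d - 3))) else 0)
      + ((if 1 ≤ (k : ℕ) ∧ (k : ℕ) ≤ d - 3 then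
        φ (Sum.inl 1) ^ (d - 1 - (k : ℕ)) * φ (Sum.inr 0) ^ (k : ℕ) else 0)
      + (if k = 0 then ∑ j : Fin (m + 1), (if 1 ≤ (j : ℕ) ∧ (j : ℕ) ≤ d - 3 then
      φ (Sum.inr j) * φ (Sum.inl 1) ^ (d - 1 - (j : ℕ))
        * ((j : ℕ) * φ (Sum.inr 0) ^ ((j : ℕ) - 1)) else 0) else 0)) := by
  have h1 : d - 2 - 1 = d - 3 := by omega
  rw [polyA]
  simp only [map_add, midPoly_pdr, sumpow_pdr]
  congr 1
  simp only [Derivation.leibniz, Derivation.leibniz_pow,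
    MvPolynomial.pderiv_X, Pi.single_apply]
  by_cases hk : k = 0
  · subst hk
    simp [h1]
    ring
  · have h3 : ¬ (0 : Fin (m + 1)) = k := fun h => hk h.symm
    simp [h3, hk]

lemma polyB_pd0 (hd : 3 ≤ d) :
    MvPolynomial.aeval φ (MvPolynomial.pderiv (Sum.inl 0) (polyB R d m))
    = φ (Sum.inl 1) * (((d - 1 : ℕ) : S) * φ (Sum.inl 0) ^ (d - 2)) + φ (Sum.inr 0) ^ (d - 1) := by
  have h1 : d - 1 - 1 = d - 2 := by omega
  rw [polyB]
  simp only [map_add, midPoly_pd0, Derivation.leibniz, Derivation.leibniz_pow, map_sum,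
    MvPolynomial.pderiv_X]
  simp [h1]

lemma polyB_pd1 (hd : 3 ≤ d) :
    MvPolynomial.aeval φ (MvPolynomial.pderiv (Sum.inl 1) (polyB R d m))
    = φ (Sum.inl 2) * (((d - 1 : ℕ) : S) * φ (Sum.inl 1) ^ (d - 2))
      + (φ (Sum.inl 0) ^ (d - 1) + φ (Sum.inr 0) ^ (d - 1))
      + ∑ j : Fin (m + 1), (if 1 ≤ (j : ℕ) ∧ (j : ℕ) ≤ d - 3 then
      φ (Sum.inr j) * ((d - 1 - (j : ℕ) : ℕ) * φ (Sum.inl 1) ^ (d - 1 - (j : ℕ) - 1))
        * φ (Sum.inr 0) ^ (j : ℕ) else 0) := by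
  have h1 : d - 1 - 1 = d - 2 := by omega
  rw [polyB]
  simp only [map_add, midPoly_pd1, Derivation.leibniz, Derivation.leibniz_pow, map_sum,
    MvPolynomial.pderiv_X]
  simp [h1]

lemma polyB_pd2 (hd : 3 ≤ d) :
    MvPolynomial.aeval φ (MvPolynomial.pderiv (Sum.inl 2) (polyB R d m))
    = φ (Sum.inl 1) ^ (d - 1) + (d : S) * φ (Sum.inl 2) ^ (d - 1) := by
  rw [polyB]
  simp only [map_add, midPoly_pd2, Derivation.leibniz, Derivation.leibniz_pow, map_sum,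
    MvPolynomial.pderiv_X]
  simp

lemma polyB_pdr (k : Fin (m + 1)) :
    MvPolynomial.aeval φ (MvPolynomial.pderiv (Sum.inr k) (polyB R d m))
    = (if k = 0 then (φ (Sum.inl 1) + φ (Sum.inl 0)) * (((d - 1 : ℕ) : S)
        * φ (Sum.inr 0) ^ (d - 2)) else 0)
      + ∑ j : Fin m, ((if j.castSucc = k then φ (Sum.inr j.succ) ^ (d - 1) else 0)
        + (if j.succ = k then ((d - 1 : ℕ) : S) * φ (Sum.inr k) ^ (d - 2)
          * φ (Sum.inr j.castSucc) else 0))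
      + ((if 1 ≤ (k : ℕ) ∧ (k : ℕ) ≤ d - 3 then
        φ (Sum.inl 1) ^ (d - 1 - (k : ℕ)) * φ (Sum.inr 0) ^ (k : ℕ) else 0)
      + (if k = 0 then ∑ j : Fin (m + 1), (if 1 ≤ (j : ℕ) ∧ (j : ℕ) ≤ d - 3 then
      φ (Sum.inr j) * φ (Sum.inl 1) ^ (d - 1 - (j : ℕ))
        * ((j : ℕ) * φ (Sum.inr 0) ^ ((j : ℕ) - 1)) else 0) else 0)) := by
  have h1 : d - 1 - 1 = d - 2 := by omega
  rw [polyB]
  simp only [map_add, midPoly_pdr, path_pdr]
  congr 1
  simp only [Derivation.leibniz, Derivation.leibniz_pow,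
    MvPolynomial.pderiv_X, Pi.single_apply]
  by_cases hk : k = 0
  · subst hk
    simp [h1]
    ring
  · have h3 : ¬ (0 : Fin (m + 1)) = k := fun h => hk h.symm
    simp [h3, hk]

end CaseAB

end Pool.Agent.SrcFano
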