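import Pool.Agent.SrcFano.Transfer
import Pool.Agent.SrcFano.PolyAB

open Polynomial

namespace Pool.Agent.SrcFano

lemma sum_single_mul {ι K : Type*} [Fintype ι] [DecidableEq ι] [Field K] (D : ι → K[X]) (j : ι) :
    ∑ i, C ((Pi.single j (1 : K) : ι → K) i) * D i = D j := by
  rw [Finset.sum_eq_single j]
  · simp
  · intro i _ hi
    simp [hi]
  · intro h
    exact absurd (Finset.mem_univ j) h

lemma midPoly_map {R S : Type*} [CommRing R] [CommRing S] (f : R →+* S) (d m : ℕ) :
    (midPoly R d m).map f = midPoly S d m := by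
  rw [midPoly, midPoly, map_sum]
  apply Finset.sum_congr rfl
  intro j _
  split_ifs <;> simp

lemma polyA_map {R S : Type*} [CommRing R] [CommRing S] (f : R →+* S) (d m : ℕ) :
    (polyA R d m).map f = polyA S d m := by
  rw [polyA, polyA]
  simp [midPoly_map]

lemma polyB_map {R S : Type*} [CommRing R] [CommRing S] (f : R →+* S) (d m : ℕ) :
    (polyB R d m).map f = polyB S d m := by
  rw [polyB, polyB]
  simp [midPoly_map]

section homog

variable {σ R : Type*} [CommRing R]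

lemma hom_pow (i : σ) (a : ℕ) : (MvPolynomial.X (R := R) i ^ a).IsHomogeneous a := by
  have := (MvPolynomial.isHomogeneous_X R i).pow a
  rwa [one_mul] at this

lemma hom_mul_pow (i j : σ) (a b : ℕ) (h : 1 + a = b) :
    (MvPolynomial.X (R := R) i * MvPolynomial.X j ^ a).IsHomogeneous b := by
  rw [← h]
  exact (MvPolynomial.isHomogeneous_X R i).mul (hom_pow j a)

end homog

lemma midPoly_hom (R : Type*) [CommRing R] (d m : ℕ) (hd : 3 ≤ d) :
    (midPoly R d m).IsHomogeneous d := by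
  rw [midPoly]
  apply MvPolynomial.IsHomogeneous.sum
  intro j _
  split_ifs with h
  · have h1 := (hom_mul_pow (R := R) (Sum.inr j : Fin 3 ⊕ Fin (m + 1)) (Sum.inl 1)
      (d - 1 - (j : ℕ)) _ rfl).mul (hom_pow (R := R) (Sum.inr 0 : Fin 3 ⊕ Fin (m + 1)) (j : ℕ))
    have h2 : 1 + (d - 1 - (j : ℕ)) + (j : ℕ) = d := by omega
    rwa [h2] at h1
  · exact MvPolynomial.isHomogeneous_zero _ _ _

lemma polyA_hom (R : Type*) [CommRing R] (d m : ℕ) (hd : 3 ≤ d) :
    (polyA R d m).IsHomogeneous d := by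
  rw [polyA]
  refine MvPolynomial.IsHomogeneous.add (MvPolynomial.IsHomogeneous.add
    (MvPolynomial.IsHomogeneous.add (MvPolynomial.IsHomogeneous.add ?_ ?_) ?_) ?_)
    (midPoly_hom R d m hd)
  · exact hom_mul_pow _ _ _ _ (by omega)
  · have h1 : (MvPolynomial.X (R := R) (Sum.inl 0 : Fin 3 ⊕ Fin (m + 1)) ^ (d - 1)
        + MvPolynomial.X (Sum.inl 0) * MvPolynomial.X (Sum.inr 0) ^ (d - 2)).IsHomogeneous (d - 1) :=
      (hom_pow _ _).add (hom_mul_pow _ _ _ _ (by omega))
    have h2 := (MvPolynomial.isHomogeneous_X R (Sum.inl 1 : Fin 3 ⊕ Fin (m + 1))).mul h1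
    have h3 : 1 + (d - 1) = d := by omega
    rwa [h3] at h2
  · apply MvPolynomial.IsHomogeneous.sum
    intro j _
    exact hom_pow _ _
  · have h2 := (hom_pow (R := R) (Sum.inl 2 : Fin 3 ⊕ Fin (m + 1)) (d - 1)).mul
      (MvPolynomial.isHomogeneous_X R (Sum.inl 0 : Fin 3 ⊕ Fin (m + 1)))
    have h3 : (d - 1) + 1 = d := by omega
    rwa [h3] at h2

lemma polyB_hom (R : Type*) [CommRing R] (d m : ℕ) (hd : 3 ≤ d) :
    (polyB R d m).IsHomogeneous d := by
  rw [polyB]
  refine MvPolynomial.IsHomogeneous.add (MvPolynomial.IsHomogeneous.add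
    (MvPolynomial.IsHomogeneous.add (MvPolynomial.IsHomogeneous.add
    (MvPolynomial.IsHomogeneous.add ?_ ?_) ?_) ?_) ?_)
    (midPoly_hom R d m hd)
  · exact hom_mul_pow _ _ _ _ (by omega)
  · have h1 : (MvPolynomial.X (R := R) (Sum.inl 0 : Fin 3 ⊕ Fin (m + 1)) ^ (d - 1)
        + MvPolynomial.X (Sum.inr 0) ^ (d - 1)).IsHomogeneous (d - 1) :=
      (hom_pow _ _).add (hom_pow _ _)
    have h2 := (MvPolynomial.isHomogeneous_X R (Sum.inl 1 : Fin 3 ⊕ Fin (m + 1))).mul h1
    have h3 : 1 + (d - 1) = d := by omega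
    rwa [h3] at h2
  · exact hom_mul_pow _ _ _ _ (by omega)
  · apply MvPolynomial.IsHomogeneous.sum
    intro j _
    have h2 := (hom_pow (R := R) (Sum.inr j.succ : Fin 3 ⊕ Fin (m + 1)) (d - 1)).mul
      (MvPolynomial.isHomogeneous_X R (Sum.inr j.castSucc : Fin 3 ⊕ Fin (m + 1)))
    have h3 : (d - 1) + 1 = d := by omega
    rwa [h3] at h2
  · exact hom_pow _ _

lemma eval_eq_aeval {σ K : Type*} [Field K] (x : σ → K) (G : MvPolynomial σ K) :
    MvPolynomial.eval x G = MvPolynomial.aeval x G := by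
  rw [MvPolynomial.aeval_eq_eval]

lemma mid_sum_zero {S : Type*} [CommRing S] (d m : ℕ) (g : Fin (m + 1) → S)
    (hg : ∀ j : Fin (m + 1), 1 ≤ (j : ℕ) → (j : ℕ) ≤ d - 3 → g j = 0) :
    ∑ j : Fin (m + 1), (if 1 ≤ (j : ℕ) ∧ (j : ℕ) ≤ d - 3 then g j else 0) = 0 := by
  apply Finset.sum_eq_zero
  intro j _
  split_ifs with h
  · exact hg j h.1 h.2
  · rfl

lemma smoothA {K : Type*} [Field K] (d m : ℕ) (hd : 3 ≤ d) (h0 : ((d - 1 : ℕ) : K) = 0) :
    IsSmoothHypersurface (polyA K d m) := by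
  intro x hx _
  by_contra hcon
  push Not at hcon
  have hd1 : (d : K) = 1 := by
    rw [Nat.cast_sub (by omega)] at h0
    push_cast at h0
    linear_combination h0
  have hc : ∀ i, MvPolynomial.aeval x (MvPolynomial.pderiv i (polyA K d m)) = 0 := by
    intro i
    rw [← eval_eq_aeval]
    exact hcon i
  have hw : x (Sum.inl 1) = 0 := by
    have := hc (Sum.inl 2)
    rw [polyA_pd2 d m x hd, h0, zero_mul, zero_mul, add_zero] at this
    exact pow_eq_zero_iff (by omega) |>.1 this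
  have hu : ∀ k, x (Sum.inr k) = 0 := by
    intro k
    have := hc (Sum.inr k)
    rw [polyA_pdr d m x k, hw, hd1] at this
    have e1 : (if 1 ≤ (k : ℕ) ∧ (k : ℕ) ≤ d - 3 then
        (0 : K) ^ (d - 1 - (k : ℕ)) * x (Sum.inr 0) ^ (k : ℕ) else 0) = 0 := by
      split_ifs with h
      · rw [zero_pow (by omega), zero_mul]
      · rfl
    have e2 : ∑ j : Fin (m + 1), (if 1 ≤ (j : ℕ) ∧ (j : ℕ) ≤ d - 3 then
      x (Sum.inr j) * (0 : K) ^ (d - 1 - (j : ℕ))
        * ((j : ℕ) * x (Sum.inr 0) ^ ((j : ℕ) - 1)) else 0) = 0 := by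
      apply mid_sum_zero
      intro j h1 h2
      rw [zero_pow (by omega), mul_zero, zero_mul]
    rw [e1, e2] at this
    simp only [zero_mul, ite_self, add_zero, one_mul] at this
    exact pow_eq_zero_iff (by omega) |>.1 this
  have hxx : x (Sum.inl 0) = 0 := by
    have := hc (Sum.inl 1)
    rw [polyA_pd1 d m x hd, hu 0, h0] at this
    rw [mid_sum_zero d m _ (fun j h1 h2 => by rw [hu j, zero_mul, zero_mul])] at this
    rw [zero_pow (by omega)] at this
    simp only [zero_mul, mul_zero, add_zero, zero_add] at this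
    exact pow_eq_zero_iff (by omega) |>.1 this
  have hz : x (Sum.inl 2) = 0 := by
    have := hc (Sum.inl 0)
    rw [polyA_pd0 d m x hd, hw, zero_mul, zero_add] at this
    exact pow_eq_zero_iff (by omega) |>.1 this
  apply hx
  funext i
  rcases i with i | i
  · fin_cases i
    · exact hxx
    · exact hw
    · exact hz
  · exact hu i

/-- the curve for the two families: `x = T A`, `w = -B`, `y = A`, all other coordinates zero -/
noncomputable def phiAB {K : Type*} [Field K] (m : ℕ) (A B : K[X]) : Fin 3 ⊕ Fin (m + 1) → K[X] :=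
  fun i => C ((Pi.single (Sum.inl 0) (1 : K) : Fin 3 ⊕ Fin (m + 1) → K) i) * (X * A)
    + C ((Pi.single (Sum.inr 0) (1 : K) : Fin 3 ⊕ Fin (m + 1) → K) i) * A
    - C ((Pi.single (Sum.inl 1) (1 : K) : Fin 3 ⊕ Fin (m + 1) → K) i) * B

section phi

variable {K : Type*} [Field K] (m : ℕ) (A B : K[X])

lemma phiAB_0 : phiAB m A B (Sum.inl 0) = X * A := by simp [phiAB]
lemma phiAB_1 : phiAB m A B (Sum.inl 1) = -B := by simp [phiAB]
lemma phiAB_2 : phiAB m A B (Sum.inl 2) = 0 := by simp [phiAB]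
lemma phiAB_r0 : phiAB m A B (Sum.inr 0) = A := by simp [phiAB]
lemma phiAB_r (j : Fin (m + 1)) (hj : 1 ≤ (j : ℕ)) : phiAB m A B (Sum.inr j) = 0 := by
  have h : j ≠ 0 := by
    rintro rfl
    simp at hj
  simp [phiAB, h]

lemma phiAB_deg (d : ℕ) (hd : 2 ≤ d) (hA : A.natDegree = d - 1) (hB : B.natDegree ≤ d - 2)
    (i : Fin 3 ⊕ Fin (m + 1)) : (phiAB m A B i).natDegree ≤ d := by
  rw [phiAB]
  refine (natDegree_sub_le _ _).trans (max_le ?_ ?_)
  · refine (natDegree_add_le _ _).trans (max_le ?_ ?_)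
    · refine natDegree_mul_le.trans ?_
      rw [natDegree_C, zero_add]
      refine natDegree_mul_le.trans ?_
      rw [natDegree_X]
      omega
    · refine natDegree_mul_le.trans ?_
      rw [natDegree_C, zero_add]
      omega
  · refine natDegree_mul_le.trans ?_
    rw [natDegree_C, zero_add]
    omega

end phi

lemma choose_dirs {ι K : Type*} [Fintype ι] [Field K] (d : ℕ) (D : ι → K[X]) (A : K[X])
    (H : ∀ l, l < d - 2 → ∃ (v : ι → K) (U : K[X]), IsCoprime A U ∧
      U.natDegree ≤ (d - 1) * (d - l) ∧ ∑ i, C (v i) * D i = A ^ l * U) :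
    ∃ (v : ℕ → ι → K) (U : ℕ → K[X]), ∀ l, l < d - 2 → IsCoprime A (U l) ∧
      (U l).natDegree ≤ (d - 1) * (d - l) ∧ ∑ i, C (v l i) * D i = A ^ l * U l := by
  choose! v U h using H
  exact ⟨v, U, h⟩

lemma midPoly_phi (K : Type*) [Field K] (d m : ℕ) (A B : K[X]) :
    MvPolynomial.aeval (phiAB m A B) (midPoly K d m) = 0 := by
  rw [midPoly, map_sum]
  apply Finset.sum_eq_zero
  intro j _
  split_ifs with h
  · simp [phiAB_r m A B j h.1]
  · simp

lemma vfA {K : Type*} [Field K] (d m : ℕ) (hd : 3 ≤ d) (hm : d ≤ m + 3)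
    (h0 : ((d - 1 : ℕ) : K) = 0) :
    ∃ f, IsVeryFreeCurve (polyA K d m) d f := by
  have hd1 : (d : K) = 1 := by
    rw [Nat.cast_sub (by omega)] at h0
    push_cast at h0
    linear_combination h0
  have hd2 : ((d - 2 : ℕ) : K) = -1 := by
    rw [Nat.cast_sub (by omega), hd1]
    norm_num
  have h0' : ((d - 1 : ℕ) : K[X]) = 0 := by
    rw [← C_eq_natCast, h0, C_0]
  have hd1' : (d : K[X]) = 1 := by
    rw [← C_eq_natCast, hd1, C_1]
  have hd2' : ((d - 2 : ℕ) : K[X]) = -1 := by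
    rw [← C_eq_natCast, hd2, C_neg, C_1]
  set A : K[X] := X ^ (d - 1) + X with hAdef
  have hA : A.natDegree = d - 1 := by
    rw [hAdef]
    apply natDegree_eq_of_degree_eq_some
    rw [degree_add_eq_left_of_degree_lt]
    · exact degree_X_pow _
    · rw [degree_X_pow, degree_X]
      exact_mod_cast (by omega : 1 < d - 1)
  have hA' : derivative A = 1 := by
    rw [hAdef, derivative_add, derivative_X_pow, h0, C_0, zero_mul, derivative_X, zero_add]
  have hF0 : MvPolynomial.aeval (phiAB m A 1) (polyA K d m) = 0 := by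
    rw [polyA]
    simp only [map_add, map_mul, map_pow, MvPolynomial.aeval_X, midPoly_phi, phiAB_0, phiAB_1,
      phiAB_2, phiAB_r0, map_sum]
    rw [Finset.sum_eq_single (0 : Fin (m + 1))]
    · rw [phiAB_r0]
      obtain ⟨e, rfl⟩ : ∃ e, d = e + 2 := ⟨d - 2, by omega⟩
      have e1 : e + 2 - 1 = e + 1 := by omega
      have e2 : e + 2 - 2 = e := by omega
      rw [e1] at hAdef ⊢
      rw [e2]
      have : A ^ (e + 2) = A ^ (e + 1) * (X ^ (e + 1) + X) := by
        rw [pow_succ A (e + 1), ← hAdef]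
      rw [this]
      ring_nf
    · intro j _ hj
      rw [phiAB_r m A 1 j (by
        rcases Nat.eq_zero_or_pos (j : ℕ) with h | h
        · exact absurd (Fin.ext h) hj
        · exact h)]
      exact zero_pow (by omega)
    · intro h
      exact absurd (Finset.mem_univ _) h
  refine ⟨_, veryFree_of_data (polyA K d m) d (polyA_hom K d m hd) _ _ _ A 1 (phiAB m A 1)
    (fun i => rfl) hF0 ?_⟩
  have hphi := phiAB_deg m A 1 d (by omega) hA (by simp)
  refine ⟨by omega, hA, by simp, ?_, isCoprime_one_right,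
    natDegree_aeval_pderiv _ d (polyA_hom K d m hd) _ hphi, ?_, ?_, ?_, ?_⟩
  · rw [hA']
    exact isCoprime_one_right
  · rw [sum_single_mul, polyA_pd0 d m _ hd, h0', phiAB_0, phiAB_1, phiAB_2, phiAB_r0, hA',
      derivative_one, zero_pow (by omega)]
    ring
  · rw [sum_single_mul, polyA_pdr d m _ 0, mid_sum_zero d m _ (fun j h1 h2 => by
      rw [phiAB_r m A 1 j h1, zero_mul, zero_mul]), hd1', hd2', phiAB_0, phiAB_1, phiAB_r0, hA',
      derivative_one]
    have e3 : ¬ (1 ≤ ((0 : Fin (m + 1)) : ℕ) ∧ ((0 : Fin (m + 1)) : ℕ) ≤ d - 3) := by simp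
    rw [if_neg e3]
    simp only [if_true]
    obtain ⟨e, rfl⟩ : ∃ e, d = e + 3 := ⟨d - 3, by omega⟩
    have e1 : e + 3 - 1 = e + 2 := by omega
    have e2 : e + 3 - 2 = e + 1 := by omega
    have e4 : e + 3 - 3 = e := by omega
    rw [e1, e2, e4]
    ring
  · rw [sum_single_mul, polyA_pd1 d m _ hd, mid_sum_zero d m _ (fun j h1 h2 => by
      rw [phiAB_r m A 1 j h1, zero_mul, zero_mul]), h0', phiAB_0, phiAB_2, phiAB_r0]
    obtain ⟨e, rfl⟩ : ∃ e, d = e + 2 := ⟨d - 2, by omega⟩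
    have e1 : e + 2 - 1 = e + 1 := by omega
    have e2 : e + 2 - 2 = e := by omega
    rw [e1] at hAdef ⊢
    rw [e2]
    have : A ^ e * A ^ 2 = A ^ (e + 1) * (X ^ (e + 1) + X) := by
      rw [← hAdef]; ring
    rw [this]
    ring_nf
  · apply choose_dirs
    intro l hl
    rcases Nat.eq_zero_or_pos l with h | h
    · subst h
      refine ⟨Pi.single (Sum.inl 2) 1, (-1) ^ (d - 1), ?_, ?_, ?_⟩
      · exact (isCoprime_one_right.neg_right).pow_right
      · refine natDegree_pow_le.trans ?_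
        simp
      · rw [sum_single_mul, polyA_pd2 d m _ hd, h0', phiAB_1]
        ring
    · refine ⟨Pi.single (Sum.inr ⟨l, by omega⟩) 1, (-1) ^ (d - 1 - l), ?_, ?_, ?_⟩
      · exact (isCoprime_one_right.neg_right).pow_right
      · refine natDegree_pow_le.trans ?_
        simp
      · have hne : (⟨l, by omega⟩ : Fin (m + 1)) ≠ 0 := by
          intro h1
          have := congrArg Fin.val h1
          simp at this
          omega
        rw [sum_single_mul, polyA_pdr d m _ _, if_neg hne, if_neg hne, phiAB_r0, phiAB_1,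
          phiAB_r m A 1 ⟨l, by omega⟩ h, if_pos ⟨h, by show l ≤ d - 3; omega⟩,
          zero_pow (by omega)]
        ring

lemma goodA (p : ℕ) [Fact p.Prime] (d m : ℕ) (hd : 3 ≤ d) (hm : d ≤ m + 3) (h : p ∣ d - 1) :
    Good p (Fin 3 ⊕ Fin (m + 1)) d := by
  have h0 : ((d - 1 : ℕ) : AlgebraicClosure (ZMod p)) = 0 := by
    rw [← map_natCast (algebraMap (ZMod p) (AlgebraicClosure (ZMod p))),
      (ZMod.natCast_eq_zero_iff _ _).2 h, map_zero]
  refine ⟨polyA (ZMod p) d m, polyA_hom _ d m hd, ?_, d, ?_⟩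
  · rw [polyA_map]
    exact smoothA d m hd h0
  · rw [polyA_map]
    exact vfA d m hd hm h0

end Pool.Agent.SrcFano
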