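import Mathlib

namespace Pool.Agent.SrcFano

section roots

variable {R : Type*} [CommRing R] [IsDomain R] {ζ : R} {N : ℕ}

lemma prod_roots (hN : 0 < N) (h : IsPrimitiveRoot ζ N) (w y : R) :
    ∏ i : Fin N, (w + ζ ^ (i : ℕ) * y) = w ^ N - (-y) ^ N := by
  classical
  rw [h.pow_sub_pow_eq_prod_sub_mul w (-y) hN]
  rw [Finset.prod_range (fun i => w + ζ ^ i * y) |>.symm]
  have h1 : Polynomial.nthRootsFinset N (1 : R) = (Finset.range N).image (fun i => ζ ^ i) := by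
    ext a
    rw [Polynomial.mem_nthRootsFinset hN, Finset.mem_image]
    constructor
    · intro ha
      have : NeZero N := ⟨by omega⟩
      obtain ⟨i, hi, rfl⟩ := h.eq_pow_of_pow_eq_one ha
      exact ⟨i, Finset.mem_range.2 hi, rfl⟩
    · rintro ⟨i, _, rfl⟩
      rw [← pow_mul, mul_comm, pow_mul, h.pow_eq_one, one_pow]
  rw [h1, Finset.prod_image]
  · apply Finset.prod_congr rfl
    intro i _
    ring
  · intro i hi j hj hij
    exact h.pow_inj (Finset.mem_range.1 hi) (Finset.mem_range.1 hj) hij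

lemma sum_roots (h : IsPrimitiveRoot ζ N) (e : ℕ) :
    ∑ i : Fin N, (ζ ^ (i : ℕ)) ^ e = if N ∣ e then (N : R) else 0 := by
  have h0 : ∀ i : Fin N, (ζ ^ (i : ℕ)) ^ e = (ζ ^ e) ^ (i : ℕ) := by
    intro i
    rw [← pow_mul, ← pow_mul, mul_comm]
  simp_rw [h0]
  rw [Finset.sum_range (fun i => (ζ ^ e) ^ i) |>.symm]
  split_ifs with hd
  · rw [(h.pow_eq_one_iff_dvd e).2 hd]
    simp
  · have h1 : ζ ^ e ≠ 1 := fun h2 => hd ((h.pow_eq_one_iff_dvd e).1 h2)
    have h2 := geom_sum_mul (ζ ^ e) N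
    rw [← pow_mul, mul_comm e N, pow_mul, h.pow_eq_one, one_pow, sub_self] at h2
    rcases mul_eq_zero.1 h2 with h3 | h3
    · exact h3
    · exact absurd (sub_eq_zero.1 h3) h1

lemma dvd_case (l m : ℕ) (hl : l < N) (hm : m < N) : N ∣ N - l + m ↔ m = l := by
  constructor
  · rintro ⟨k, hk⟩
    have h1 : N - l + m < 2 * N := by omega
    have h2 : 0 < N - l + m := by omega
    rw [hk] at h1 h2
    have h3 : k < 2 := by
      by_contra hcon
      have : 2 ≤ k := by omega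
      have := Nat.mul_le_mul_left N this
      omega
    have h4 : k ≠ 0 := by
      rintro rfl
      simp at h2
    have h5 : k = 1 := by omega
    rw [h5] at hk
    omega
  · rintro rfl
    exact ⟨1, by omega⟩

lemma dvd_case' (l : ℕ) (hl : l < N) : N ∣ N - l + N ↔ l = 0 := by
  rw [Nat.dvd_add_left (dvd_refl N)]
  constructor
  · intro h
    by_contra h0
    have := Nat.le_of_dvd (by omega) h
    omega
  · rintro rfl
    simp

lemma sum_pow_roots (h : IsPrimitiveRoot ζ N) (w y : R) (l : ℕ) (hl : l < N) :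
    ∑ i : Fin N, (ζ ^ (i : ℕ)) ^ (N - l) * (w + ζ ^ (i : ℕ) * y) ^ N
      = (N : R) * (N.choose l : R) * w ^ (N - l) * y ^ l + if l = 0 then (N : R) * y ^ N else 0 := by
  have h1 : ∀ i : Fin N, (ζ ^ (i : ℕ)) ^ (N - l) * (w + ζ ^ (i : ℕ) * y) ^ N
      = ∑ m ∈ Finset.range (N + 1), (ζ ^ (i : ℕ)) ^ (N - l + m) *
        (y ^ m * w ^ (N - m) * (N.choose m : R)) := by
    intro i
    rw [add_comm w, add_pow, Finset.mul_sum]
    apply Finset.sum_congr rfl
    intro m _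
    rw [mul_pow, pow_add]
    ring
  simp_rw [h1]
  rw [Finset.sum_comm]
  simp_rw [← Finset.sum_mul, sum_roots h]
  rw [Finset.sum_range_succ, Finset.sum_eq_single l]
  · rw [if_pos ((dvd_case l l hl hl).2 rfl)]
    have : (if N ∣ N - l + N then (N : R) else 0) = if l = 0 then (N : R) else 0 := by
      simp only [dvd_case' l hl]
    rw [this]
    split_ifs
    · simp
      ring
    · simp
      ring
  · intro m hm hml
    rw [if_neg]
    · ring
    · rw [dvd_case l m hl (Finset.mem_range.1 hm)]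
      exact hml
  · intro h2
    exact absurd (Finset.mem_range.2 hl) h2

lemma sum_geom_roots (h : IsPrimitiveRoot ζ N) (w y : R) (l : ℕ) (hl : l < N) :
    ∑ i : Fin N, (ζ ^ (i : ℕ)) ^ (N - l) *
      ∑ k ∈ Finset.range N, w ^ (N - 1 - k) * (-(ζ ^ (i : ℕ) * y)) ^ k
      = (N : R) * (w ^ (N - 1 - l) * (-y) ^ l) := by
  have h1 : ∀ i : Fin N, (ζ ^ (i : ℕ)) ^ (N - l) *
      ∑ k ∈ Finset.range N, w ^ (N - 1 - k) * (-(ζ ^ (i : ℕ) * y)) ^ k
      = ∑ k ∈ Finset.range N, (ζ ^ (i : ℕ)) ^ (N - l + k) * (w ^ (N - 1 - k) * (-y) ^ k) := by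
    intro i
    rw [Finset.mul_sum]
    apply Finset.sum_congr rfl
    intro k _
    rw [← mul_neg, mul_pow, pow_add]
    ring
  simp_rw [h1]
  rw [Finset.sum_comm]
  simp_rw [← Finset.sum_mul, sum_roots h]
  rw [Finset.sum_eq_single l]
  · rw [if_pos ((dvd_case l l hl hl).2 rfl)]
  · intro m hm hml
    rw [if_neg]
    · ring
    · rw [dvd_case l m hl (Finset.mem_range.1 hm)]
      exact hml
  · intro h2
    exact absurd (Finset.mem_range.2 hl) h2

lemma prod_erase_roots (hN : 0 < N) (h : IsPrimitiveRoot ζ N) (w y : R)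
    (i : Fin N) (hne : w + ζ ^ (i : ℕ) * y ≠ 0) :
    ∏ j ∈ Finset.univ.erase i, (w + ζ ^ (j : ℕ) * y)
      = ∑ k ∈ Finset.range N, w ^ (N - 1 - k) * (-(ζ ^ (i : ℕ) * y)) ^ k := by
  have h1 : (w + ζ ^ (i : ℕ) * y) * ∏ j ∈ Finset.univ.erase i, (w + ζ ^ (j : ℕ) * y)
      = w ^ N - (-y) ^ N := by
    rw [Finset.mul_prod_erase Finset.univ (fun j : Fin N => w + ζ ^ (j : ℕ) * y)
      (Finset.mem_univ i), prod_roots hN h]
  have h2 := geom_sum₂_mul (-(ζ ^ (i : ℕ) * y)) w N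
  have h3 : (-(ζ ^ (i : ℕ) * y)) ^ N = (-y) ^ N := by
    rw [← mul_neg, mul_pow, ← pow_mul, mul_comm (i : ℕ) N, pow_mul, h.pow_eq_one, one_pow, one_mul]
  rw [h3] at h2
  have h4 : ∑ k ∈ Finset.range N, w ^ (N - 1 - k) * (-(ζ ^ (i : ℕ) * y)) ^ k
      = ∑ k ∈ Finset.range N, (-(ζ ^ (i : ℕ) * y)) ^ k * w ^ (N - 1 - k) := by
    apply Finset.sum_congr rfl
    intro k _
    ring
  rw [h4]
  apply mul_left_cancel₀ hne
  rw [h1]
  linear_combination h2

end roots

end Pool.Agent.SrcFano
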