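import Pool.Agent.SrcFano.PolyC
import Pool.Agent.SrcFano.Roots

open Polynomial

namespace Pool.Agent.SrcFano

section curve

variable {K : Type*} [Field K] (N t : ℕ) [NeZero N] (c z ζ α : K)

/-- `A` for case C -/
noncomputable def polAc : K[X] := X ^ N + C α

/-- the curve for case C -/
noncomputable def phiC : Fin 2 ⊕ (Fin N ⊕ Fin t) → K[X] :=
  Sum.elim (fun i => if i = 0 then X * polAc N α else C z * (-X ^ N))
    (Sum.elim (fun i => -X ^ N + (C ζ) ^ (i : ℕ) * polAc N α) (fun _ => 0))

/-- directions -/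
noncomputable def eyC : Fin 2 ⊕ (Fin N ⊕ Fin t) → K :=
  Sum.elim (fun i => if i = 0 then 0 else -z)
    (Sum.elim (fun i => ζ ^ (i : ℕ) - 1) (fun _ => 0))

noncomputable def ewC : Fin 2 ⊕ (Fin N ⊕ Fin t) → K :=
  Sum.elim (fun i => if i = 0 then 0 else z) (Sum.elim (fun _ => 1) (fun _ => 0))

lemma phiC_eq (i : Fin 2 ⊕ (Fin N ⊕ Fin t)) : phiC N t z ζ α i
    = C ((Pi.single (Sum.inl 0) (1 : K) : Fin 2 ⊕ (Fin N ⊕ Fin t) → K) i) * (X * polAc N α)
      + C (eyC N t z ζ i) * polAc N α - C (ewC N t z i) * (C (-α)) := by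
  rcases i with i | i | i
  · fin_cases i
    · simp [phiC, eyC, ewC]
    · simp [phiC, eyC, ewC, polAc]
      ring
  · simp [phiC, eyC, ewC, polAc]
    ring
  · simp [phiC, eyC, ewC]

lemma phiC_0 : phiC N t z ζ α (Sum.inl 0) = X * polAc N α := by simp [phiC]
lemma phiC_1 : phiC N t z ζ α (Sum.inl 1) = C z * (-X ^ N) := by simp [phiC]
lemma phiC_i (i : Fin N) : phiC N t z ζ α (Sum.inr (Sum.inl i))
    = -X ^ N + (C ζ) ^ (i : ℕ) * polAc N α := by simp [phiC]
lemma phiC_t (j : Fin t) : phiC N t z ζ α (Sum.inr (Sum.inr j)) = 0 := by simp [phiC]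

lemma phiC_ne (hN : 1 ≤ N) (hα : α ≠ 0) (hζ : IsPrimitiveRoot ζ N) (i : ℕ) :
    (-X ^ N + (C ζ) ^ i * polAc N α : K[X]) ≠ 0 := by
  intro h
  have h1 := congrArg (Polynomial.eval 0) h
  rw [polAc] at h1
  simp only [eval_add, eval_neg, eval_pow, eval_X, eval_mul, eval_C, eval_zero] at h1
  rw [zero_pow (by omega)] at h1
  have h2 : ζ ^ i * α = 0 := by linear_combination h1
  rcases mul_eq_zero.1 h2 with h3 | h3
  · exact pow_ne_zero i (hζ.ne_zero (by omega)) h3
  · exact hα h3

/-- the combination of partial derivatives -/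
lemma S_formula (hN : 2 ≤ N) (hα : α ≠ 0) (hζ : IsPrimitiveRoot ζ N) (l : ℕ) (hl : l < N) :
    ∑ i : Fin N, ((C ζ : K[X]) ^ (i : ℕ)) ^ (N - l) *
      MvPolynomial.aeval (phiC N t z ζ α) (MvPolynomial.pderiv (Sum.inr (Sum.inl i))
        (polyC K N t c))
    = (X * polAc N α) ^ N + ((N : K[X]) + 1) * ((N : K[X]) * (N.choose l : K[X])
        * (-X ^ N) ^ (N - l) * polAc N α ^ l + if l = 0 then (N : K[X]) * polAc N α ^ N else 0)
      - (C z * (-X ^ N)) * ((N : K[X]) * ((-X ^ N) ^ (N - 1 - l) * (-polAc N α) ^ l)) := by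
  have hζ' : IsPrimitiveRoot (C ζ : K[X]) N := hζ.map_of_injective C_injective
  rw [← sum_pow_roots hζ' (-X ^ N) (polAc N α) l hl,
    ← sum_geom_roots hζ' (-X ^ N) (polAc N α) l hl, Finset.mul_sum, Finset.mul_sum]
  have h0 : (X * polAc N α) ^ N = ∑ i : Fin N, ((C ζ : K[X]) ^ (i : ℕ)) ^ (N - l) *
      (if i = 0 then (X * polAc N α) ^ N else 0) := by
    rw [Finset.sum_eq_single (0 : Fin N)]
    · simp
    · intro j _ hj
      simp [hj]
    · intro h
      exact absurd (Finset.mem_univ _) h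
  rw [h0, ← Finset.sum_add_distrib, ← Finset.sum_sub_distrib]
  apply Finset.sum_congr rfl
  intro i _
  rw [polyC_pdi]
  simp_rw [phiC_0, phiC_1, phiC_i]
  rw [prod_erase_roots (by omega) hζ' (-X ^ N) (polAc N α) i
    (phiC_ne N ζ α (by omega) hα hζ _)]
  ring

lemma sum_ex (D : Fin 2 ⊕ (Fin N ⊕ Fin t) → K[X]) (a : Fin 2 ⊕ (Fin N ⊕ Fin t) → K) :
    ∑ i, C (a i) * D i = C (a (Sum.inl 0)) * D (Sum.inl 0) + C (a (Sum.inl 1)) * D (Sum.inl 1)
      + (∑ i : Fin N, C (a (Sum.inr (Sum.inl i))) * D (Sum.inr (Sum.inl i))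
        + ∑ j : Fin t, C (a (Sum.inr (Sum.inr j))) * D (Sum.inr (Sum.inr j))) := by
  rw [Fintype.sum_sum_type, Fintype.sum_sum_type, Fin.sum_univ_two]

lemma vfC (hN : 2 ≤ N) (hα0 : α ≠ 0) (hζ : IsPrimitiveRoot ζ N)
    (hN0 : (N : K) ≠ 0) (hN1 : (N : K) + 1 ≠ 0)
    (hz : c * z ^ (N + 1) - z + N = 0)
    (hα : α = N * (N + 1) + (-1) ^ N * z)
    (hzl : ∀ l, l < N → ((N : K) + 1) * (N.choose l : K) - (-1) ^ l * z ≠ 0) :
    ∃ f, IsVeryFreeCurve (polyC K N t c) (N + 1) f := by
  obtain ⟨A, hAdef⟩ : ∃ A : K[X], A = polAc N α := ⟨_, rfl⟩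
  have hA1 : A = X ^ N + C α := by rw [hAdef, polAc]
  have hA : A.natDegree = N + 1 - 1 := by
    rw [hA1, natDegree_X_pow_add_C]
    omega
  have hA' : derivative A = C (N : K) * X ^ (N - 1) := by
    rw [hA1, derivative_add, derivative_X_pow, derivative_C, add_zero]
  have hαC : C α * C α⁻¹ = (1 : K[X]) := by
    rw [← C_mul, mul_inv_cancel₀ hα0, C_1]
  have hAw : IsCoprime A (-X ^ N : K[X]) := by
    refine ⟨C α⁻¹, C α⁻¹, ?_⟩
    rw [hA1]
    linear_combination hαC
  have hAX : IsCoprime A (X ^ N : K[X]) := by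
    have := hAw.neg_right
    rwa [neg_neg] at this
  have hAX1 : IsCoprime A (X : K[X]) := (IsCoprime.pow_right_iff (by omega)).1 hAX
  have hunit : ∀ a : K, a ≠ 0 → ∀ P : K[X], IsCoprime A P → IsCoprime A (C a * P) := by
    intro a ha P hP
    have : IsUnit (C a : K[X]) := isUnit_C.2 (isUnit_iff_ne_zero.2 ha)
    exact (isCoprime_mul_unit_left_right this A P).2 hP
  have hφdeg : ∀ i, (phiC N t z ζ α i).natDegree ≤ N + 1 := by
    intro i
    rw [phiC_eq, ← hAdef]
    refine (natDegree_sub_le _ _).trans (max_le ?_ ?_)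
    · refine (natDegree_add_le _ _).trans (max_le ?_ ?_)
      · refine natDegree_mul_le.trans ?_
        rw [natDegree_C, zero_add]
        refine natDegree_mul_le.trans ?_
        rw [natDegree_X]
        omega
      · refine natDegree_mul_le.trans ?_
        rw [natDegree_C, zero_add]
        omega
    · refine natDegree_mul_le.trans ?_
      rw [natDegree_C, natDegree_C]
      omega
  have hhom := polyC_hom K N t c
  have e0 : (N + 1 - 2 : ℕ) = N - 1 := by omega
  -- values of the partial derivatives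
  obtain ⟨D, hD⟩ : ∃ D : Fin 2 ⊕ (Fin N ⊕ Fin t) → K[X],
      D = fun i => MvPolynomial.aeval (phiC N t z ζ α) (MvPolynomial.pderiv i (polyC K N t c)) :=
    ⟨_, rfl⟩
  have hζ' : IsPrimitiveRoot (C ζ : K[X]) N := hζ.map_of_injective C_injective
  have hD0 : D (Sum.inl 0) = (N : K[X]) * C α * (X * A) ^ (N - 1) := by
    rw [hD]
    simp only
    rw [polyC_pd0, phiC_i, phiC_0, ← hAdef]
    congr 2
    rw [hA1]
    simp
  have hD1 : D (Sum.inl 1) = ((N : K[X]) + 1) * C c * (C z * (-X ^ N)) ^ N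
      - ((-X ^ N) ^ N - (-A) ^ N) := by
    rw [hD]
    simp only
    rw [polyC_pd1, phiC_1, ← prod_roots (by omega) hζ' (-X ^ N) A]
    simp_rw [phiC_i, ← hAdef]
    rfl
  have hDt : ∀ j, D (Sum.inr (Sum.inr j)) = 0 := by
    intro j
    rw [hD]
    simp only
    rw [polyC_pdt, phiC_t, zero_pow (by omega), mul_zero]
  have hS : ∀ l, l < N → ∑ i : Fin N, ((C ζ : K[X]) ^ (i : ℕ)) ^ (N - l) *
      D (Sum.inr (Sum.inl i))
      = (X * A) ^ N + ((N : K[X]) + 1) * ((N : K[X]) * (N.choose l : K[X])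
        * (-X ^ N) ^ (N - l) * A ^ l + if l = 0 then (N : K[X]) * A ^ N else 0)
      - (C z * (-X ^ N)) * ((N : K[X]) * ((-X ^ N) ^ (N - 1 - l) * (-A) ^ l)) := by
    intro l hl
    rw [hD, hAdef]
    exact S_formula N t c z ζ α hN hα0 hζ l hl
  have hzC : C c * C z ^ (N + 1) - C z + (N : K[X]) = 0 := by
    have := congrArg (C : K → K[X]) hz
    simpa using this
  have hαC' : (C α : K[X]) = N * (N + 1) + (-1) ^ N * C z := by
    rw [hα]
    simp
  have hXA : (X : K[X]) ^ N = A - C α := by rw [hA1]; ring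
  have hS0 : ∑ i : Fin N, D (Sum.inr (Sum.inl i))
      = (X * A) ^ N + ((N : K[X]) + 1) * ((N : K[X]) * (-X ^ N) ^ N + (N : K[X]) * A ^ N)
        - C z * (N : K[X]) * (-X ^ N) ^ N := by
    have h1 := hS 0 (by omega)
    have h2 : ∀ i : Fin N, ((C ζ : K[X]) ^ (i : ℕ)) ^ (N - 0) * D (Sum.inr (Sum.inl i))
        = D (Sum.inr (Sum.inl i)) := by
      intro i
      rw [Nat.sub_zero, ← pow_mul, mul_comm (i : ℕ) N, pow_mul, hζ'.pow_eq_one, one_pow, one_mul]
    simp_rw [h2] at h1
    rw [h1]
    obtain ⟨M, rfl⟩ : ∃ M, N = M + 1 := ⟨N - 1, by omega⟩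
    have e1 : M + 1 - 1 - 0 = M := by omega
    have e2 : M + 1 - 0 = M + 1 := by omega
    rw [e1, e2, if_pos trivial, Nat.choose_zero_right]
    ring
  have hW : C z * D (Sum.inl 1) + ∑ i : Fin N, D (Sum.inr (Sum.inl i)) = A ^ (N + 1) := by
    rw [hS0, hD1, mul_pow X A N, hXA, neg_pow A N]
    have h3 : C c * (C z * -(A - C α)) ^ N = C c * C z ^ N * (-(A - C α)) ^ N := by
      rw [mul_pow]; ring
    have h4 : A ^ N * ((-1) ^ N * C z) = A ^ N * (C α - N * (N + 1)) := by
      rw [hαC']; ring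
    have h5 : (-(A - C α)) ^ N * (((N : K[X]) + 1) * (C c * C z ^ (N + 1) - C z + (N : K[X]))) = 0 := by
      rw [hzC]; ring
    rw [pow_succ A N]
    rw [pow_succ (C z) N] at h5
    linear_combination ((N : K[X]) + 1) * C z * h3 + h4 + h5
  have hS1 : ∑ i : Fin N, (C ζ : K[X]) ^ (i : ℕ) * D (Sum.inr (Sum.inl i))
      = (X * A) ^ N - (N : K[X]) * C α * X ^ N * A ^ (N - 1) := by
    have h1 := hS (N - 1) (by omega)
    have e1 : N - (N - 1) = 1 := by omega
    have e2 : N - 1 - (N - 1) = 0 := by omega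
    have e3 : ¬ (N - 1 = 0) := by omega
    have e4 : N.choose (N - 1) = N := by
      rw [Nat.choose_symm_of_eq_add (a := N - 1) (b := 1) (by omega), Nat.choose_one_right]
    rw [e1, e2, if_neg e3, e4] at h1
    simp only [pow_one, pow_zero] at h1
    rw [h1, neg_pow A, hαC']
    have h6 : (-1 : K[X]) ^ N = -(-1) ^ (N - 1) := by
      obtain ⟨M, rfl⟩ : ∃ M, N = M + 1 := ⟨N - 1, by omega⟩
      rw [pow_succ]
      simp
    rw [h6]
    ring
  refine ⟨_, veryFree_of_data (polyC K N t c) (N + 1) hhom _ (eyC N t z ζ) (ewC N t z) A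
    (C (-α)) (phiC N t z ζ α) (fun i => by rw [phiC_eq, hAdef]) ?_ ?_⟩
  · -- Euler
    have hE := hhom.sum_X_mul_pderiv
    have hE' := congrArg (MvPolynomial.aeval (phiC N t z ζ α)) hE
    rw [map_sum] at hE'
    have h1 : ∑ i, MvPolynomial.aeval (phiC N t z ζ α) (MvPolynomial.X i *
        MvPolynomial.pderiv i (polyC K N t c)) = ∑ i, phiC N t z ζ α i * D i := by
      apply Finset.sum_congr rfl
      intro i _
      rw [map_mul, MvPolynomial.aeval_X, hD]
    rw [h1, Fintype.sum_sum_type, Fintype.sum_sum_type, Fin.sum_univ_two] at hE'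
    simp_rw [phiC_0, phiC_1, phiC_i, phiC_t, ← hAdef] at hE'
    have h2 : ∑ i : Fin N, (-X ^ N + (C ζ) ^ (i : ℕ) * A) * D (Sum.inr (Sum.inl i))
        = (-X ^ N) * ∑ i : Fin N, D (Sum.inr (Sum.inl i))
          + A * ∑ i : Fin N, (C ζ : K[X]) ^ (i : ℕ) * D (Sum.inr (Sum.inl i)) := by
      rw [Finset.mul_sum, Finset.mul_sum, ← Finset.sum_add_distrib]
      apply Finset.sum_congr rfl
      intro i _
      ring
    have h3 : X * A * D (Sum.inl 0) + C z * -X ^ N * D (Sum.inl 1)
        + (∑ i : Fin N, (-X ^ N + (C ζ) ^ (i : ℕ) * A) * D (Sum.inr (Sum.inl i))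
          + ∑ j : Fin t, 0 * D (Sum.inr (Sum.inr j))) = 0 := by
      rw [h2, hS1, hD0]
      simp only [zero_mul, Finset.sum_const_zero, add_zero]
      have h4 : (X * A) ^ N = (X * A) * (X * A) ^ (N - 1) := by
        rw [← pow_succ', (by omega : N - 1 + 1 = N)]
      have h5 : (X : K[X]) ^ N * A ^ (N - 1) * A = (X * A) ^ N := by
        rw [mul_assoc, ← pow_succ, (by omega : N - 1 + 1 = N), mul_pow]
      have h6 : A ^ (N + 1) = A ^ N * (X ^ N + C α) := by rw [pow_succ, ← hA1]
      have h7 : A * (X * A) ^ N = (X ^ N + C α) * (X * A) ^ N := by rw [← hA1]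
      have h8 : (X * A) ^ N = X ^ N * A ^ N := mul_pow _ _ _
      have h9 := hW
      rw [h6] at h9
      have h10 : A * (X * A) ^ N = A * (X ^ N * A ^ N) := by rw [h8]
      have h11 : A ^ (N + 1) = A * A ^ N := by ring
      linear_combination (-X ^ N) * hW + (-(N : K[X]) * C α) * h4 - (N : K[X]) * C α * h5 + h10
        - X ^ N * h11
    rw [h3] at hE'
    have h12 : ((N + 1 : ℕ) : K) ≠ 0 := by
      push_cast
      exact hN1
    rw [map_nsmul, nsmul_eq_mul] at hE'
    rcases mul_eq_zero.1 hE'.symm with h13 | h13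
    · exfalso
      rw [← C_eq_natCast, C_eq_zero] at h13
      exact h12 h13
    · exact h13
  · refine ⟨by omega, hA, by simp, ?_, ?_, natDegree_aeval_pderiv _ _ hhom _ hφdeg, ?_, ?_, ?_, ?_⟩
    · rw [hA']
      exact hunit _ hN0 _ hAX1.pow_right
    · have := hunit (-α) (neg_ne_zero.2 hα0) 1 isCoprime_one_right
      rwa [mul_one] at this
    · have h1 := sum_ex N t D (Pi.single (Sum.inl 0) (1 : K))
      rw [hD] at h1
      rw [h1, ← hD, hD0, hA', e0, derivative_C, mul_pow X A]
      simp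
      ring
    · have h1 := sum_ex N t D (eyC N t z ζ)
      rw [hD] at h1
      rw [h1, ← hD, hA', e0, derivative_C]
      have h2 : ∑ i : Fin N, C (eyC N t z ζ (Sum.inr (Sum.inl i))) * D (Sum.inr (Sum.inl i))
          = ∑ i : Fin N, (C ζ : K[X]) ^ (i : ℕ) * D (Sum.inr (Sum.inl i))
            - ∑ i : Fin N, D (Sum.inr (Sum.inl i)) := by
        rw [← Finset.sum_sub_distrib]
        apply Finset.sum_congr rfl
        intro i _
        simp [eyC]
        ring
      rw [h2, hS1]
      simp only [hDt, mul_zero, Finset.sum_const_zero, add_zero]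
      have h3 : C (eyC N t z ζ (Sum.inl 0)) = 0 := by simp [eyC]
      have h4 : C (eyC N t z ζ (Sum.inl 1)) = -C z := by simp [eyC]
      rw [h3, h4]
      have h5 : A ^ (N + 1) = A ^ (N - 1) * A ^ 2 := by
        rw [← pow_add]; congr 1; omega
      have h6 : (X * A) ^ N = X ^ N * A ^ (N - 1) * A := by
        rw [mul_pow, mul_assoc, ← pow_succ, (by omega : N - 1 + 1 = N)]
      have h7 : (X : K[X]) * X ^ (N - 1) = X ^ N := by
        rw [← pow_succ', (by omega : N - 1 + 1 = N)]
      rw [h6, C_neg, ← C_eq_natCast]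
      have h8 : A ^ (N - 1) * A ^ 2 = A ^ (N - 1) * A * (X ^ N + C α) := by
        rw [← hA1]; ring
      linear_combination (-1 : K[X]) * hW - h5 - h8 + A ^ (N - 1) * C (N : K) * C α * h7
    · have h1 := sum_ex N t D (ewC N t z)
      rw [hD] at h1
      rw [h1, ← hD, e0]
      have h2 : ∑ i : Fin N, C (ewC N t z (Sum.inr (Sum.inl i))) * D (Sum.inr (Sum.inl i))
          = ∑ i : Fin N, D (Sum.inr (Sum.inl i)) := by
        apply Finset.sum_congr rfl
        intro i _
        simp [ewC]
      rw [h2]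
      simp only [hDt, mul_zero, Finset.sum_const_zero, add_zero]
      have h3 : C (ewC N t z (Sum.inl 0)) = 0 := by simp [ewC]
      have h4 : C (ewC N t z (Sum.inl 1)) = C z := by simp [ewC]
      rw [h3, h4, zero_mul, zero_add, hW, ← pow_add]
      congr 1
      omega
    · apply choose_dirs
      intro l hl
      have hl' : l < N - 1 := by omega
      refine ⟨Sum.elim (fun _ => 0) (Sum.elim (fun i => (ζ ^ (i : ℕ)) ^ (N - l)) (fun _ => 0)),
        X ^ N * A ^ (N - l) + ((N : K[X]) + 1) * ((N : K[X]) * (N.choose l : K[X])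
          * (-X ^ N) ^ (N - l) + if l = 0 then (N : K[X]) * A ^ N else 0)
          - (-1) ^ l * C z * (N : K[X]) * (-X ^ N) ^ (N - l), ?_, ?_, ?_⟩
      · have h1 : IsCoprime A (C ((N : K) * (((N : K) + 1) * (N.choose l : K) - (-1) ^ l * z))
            * (-X ^ N) ^ (N - l)) :=
          hunit _ (mul_ne_zero hN0 (hzl l (by omega))) _ hAw.pow_right
        have h2 : X ^ N * A ^ (N - l) + ((N : K[X]) + 1) * ((N : K[X]) * (N.choose l : K[X])
          * (-X ^ N) ^ (N - l) + if l = 0 then (N : K[X]) * A ^ N else 0)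
          - (-1) ^ l * C z * (N : K[X]) * (-X ^ N) ^ (N - l)
          = C ((N : K) * (((N : K) + 1) * (N.choose l : K) - (-1) ^ l * z))
            * (-X ^ N) ^ (N - l) + A * (X ^ N * A ^ (N - l - 1) + ((N : K[X]) + 1)
              * if l = 0 then (N : K[X]) * A ^ (N - 1) else 0) := by
          have h3 : A ^ (N - l) = A * A ^ (N - l - 1) := by
            rw [← pow_succ', (by omega : N - l - 1 + 1 = N - l)]
          have h4 : A ^ N = A * A ^ (N - 1) := by
            rw [← pow_succ', (by omega : N - 1 + 1 = N)]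
          simp only [C_mul, C_sub, C_add, C_pow, C_neg, C_1, C_eq_natCast]
          split_ifs with h5
          · rw [h3, h4]; ring
          · rw [h3]; ring
        rw [h2]
        exact h1.add_mul_left_right _
      · have hXN : (X ^ N : K[X]).natDegree = N := natDegree_X_pow N
        have hwN : ((-X ^ N) ^ (N - l) : K[X]).natDegree ≤ (N - l) * N := by
          refine natDegree_pow_le.trans ?_
          rw [natDegree_neg, hXN]
        have hcast : ∀ n : ℕ, ((n : K[X])).natDegree = 0 := fun n => natDegree_natCast n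
        have hbound : (N + 1 - 1) * (N + 1 - l) = (N - l) * N + N := by
          have : N + 1 - l = (N - l) + 1 := by omega
          rw [this, Nat.add_sub_cancel]
          ring
        rw [hbound]
        have hs1 : (((N : K[X]) + 1)).natDegree = 0 := by
          have := hcast (N + 1)
          rwa [Nat.cast_add, Nat.cast_one] at this
        refine (natDegree_sub_le _ _).trans (max_le ?_ ?_)
        · refine (natDegree_add_le _ _).trans (max_le ?_ ?_)
          · refine natDegree_mul_le.trans ?_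
            have := natDegree_pow_le (p := A) (n := N - l)
            rw [hA, Nat.add_sub_cancel] at this
            rw [hXN]
            omega
          · refine natDegree_mul_le.trans ?_
            rw [hs1, zero_add]
            refine (natDegree_add_le _ _).trans (max_le ?_ ?_)
            · refine natDegree_mul_le.trans ?_
              have : ((N : K[X]) * (N.choose l : K[X])).natDegree ≤ 0 := by
                refine natDegree_mul_le.trans ?_
                rw [hcast, hcast]
              omega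
            · split_ifs with h5
              · refine natDegree_mul_le.trans ?_
                have := natDegree_pow_le (p := A) (n := N)
                rw [hA, Nat.add_sub_cancel] at this
                rw [hcast, h5, Nat.sub_zero]
                omega
              · simp
        · refine natDegree_mul_le.trans ?_
          have : ((-1) ^ l * C z * (N : K[X])).natDegree ≤ 0 := by
            have h6 : ((-1) ^ l * C z * (N : K[X])) = C ((-1) ^ l * z * (N : K)) := by simp
            rw [h6, natDegree_C]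
          omega
      · have h1 := sum_ex N t D (Sum.elim (fun _ => 0)
          (Sum.elim (fun i => (ζ ^ (i : ℕ)) ^ (N - l)) (fun _ => 0)))
        rw [hD] at h1
        rw [h1, ← hD]
        simp only [Sum.elim_inl, Sum.elim_inr, C_0, zero_mul, Finset.sum_const_zero, add_zero,
          zero_add]
        have h2 : ∑ i : Fin N, C ((ζ ^ (i : ℕ)) ^ (N - l)) * D (Sum.inr (Sum.inl i))
            = ∑ i : Fin N, ((C ζ : K[X]) ^ (i : ℕ)) ^ (N - l) * D (Sum.inr (Sum.inl i)) := by
          apply Finset.sum_congr rfl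
          intro i _
          simp
        rw [h2, hS l (by omega), mul_pow X A N, neg_pow A l]
        have h3 : A ^ N = A ^ l * A ^ (N - l) := by
          rw [← pow_add]; congr 1; omega
        have h4 : (-X ^ N : K[X]) ^ (N - l) = (-X ^ N) * (-X ^ N) ^ (N - 1 - l) := by
          rw [← pow_succ']; congr 1; omega
        split_ifs with h5
        · subst h5
          rw [h4]
          simp only [pow_zero, Nat.sub_zero] at h4 ⊢
          ring
        · rw [h4, h3]
          ring

end curve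

end Pool.Agent.SrcFano
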