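import Mathlib

namespace Pool.Agent.SrcFano

/-- `F` is a homogeneous form in coordinates indexed by `σ` over an algebraically closed field `K`.
The hypersurface `X = {F = 0}` in projective space is smooth: at every point of `X` some partial
derivative of `F` does not vanish. -/
def IsSmoothHypersurface {σ K : Type*} [Field K] (F : MvPolynomial σ K) : Prop :=
  ∀ x : σ → K, x ≠ 0 → MvPolynomial.eval x F = 0 →
    ∃ i, MvPolynomial.eval x (MvPolynomial.pderiv i F) ≠ 0

/-- The binary forms `f i` (`i : σ`) of degree `e ≥ 1` have no common zero and satisfy `F(f) = 0`,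
so they define a morphism `f` from the projective line to `X = {F = 0}`; and the bundle `f^* T_X`
twisted by `-1` is generated by its global sections, which says that `f^* T_X` is ample.

Here (Euler sequence and normal sequence) the fibre of `f^* T_X (-1)` at a point `P` is the space of
vectors `v` with `∑ F_i(f(P)) v_i = 0` modulo the multiples of `f(P)`, and its global sections are
the tuples `a` of binary forms of degree `e - 1` with `∑ F_i(f) a_i = 0`, where `F_i` is the
`i`-th partial derivative of `F`. -/
def IsVeryFreeCurve {σ K : Type*} [Fintype σ] [Field K] (F : MvPolynomial σ K) (e : ℕ)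
    (f : σ → MvPolynomial (Fin 2) K) : Prop :=
  1 ≤ e ∧ (∀ i, (f i).IsHomogeneous e) ∧
  (∀ P : Fin 2 → K, P ≠ 0 → ∃ i, MvPolynomial.eval P (f i) ≠ 0) ∧
  MvPolynomial.aeval f F = 0 ∧
  ∀ P : Fin 2 → K, P ≠ 0 → ∀ v : σ → K,
    ∑ i, MvPolynomial.eval P (MvPolynomial.aeval f (MvPolynomial.pderiv i F)) * v i = 0 →
    ∃ (a : σ → MvPolynomial (Fin 2) K) (c : K), (∀ i, (a i).IsHomogeneous (e - 1)) ∧
      ∑ i, MvPolynomial.aeval f (MvPolynomial.pderiv i F) * a i = 0 ∧
      ∀ i, v i = MvPolynomial.eval P (a i) + c * MvPolynomial.eval P (f i)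

end Pool.Agent.SrcFano
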