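import Pool.Agent.SrcFano.CaseC

open Polynomial

namespace Pool.Agent.SrcFano

/-- a coefficient `c` for which `c T^(N+1) - T + N` has no root in the prime field -/
lemma exists_coeff (p : ℕ) [Fact p.Prime] (N : ℕ) (hN0 : (N : ZMod p) ≠ 0)
    (hN1 : (N : ZMod p) + 1 ≠ 0) :
    ∃ c : ZMod p, c ≠ 0 ∧ c * ((N : ZMod p) + 1) ^ (N + 1) ≠ 1 ∧
      ∀ z : ZMod p, c * z ^ (N + 1) - z + N ≠ 0 := by
  let φ : ZMod p → ZMod p := fun z => (z - N) * (z⁻¹) ^ (N + 1)
  have h0 : φ 0 = 0 := by simp [φ]
  have h1 : φ N = 0 := by simp [φ]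
  have hinj : ¬ Function.Injective φ := by
    intro h
    exact hN0 (h (h1.trans h0.symm))
  have hsurj : ¬ Function.Surjective φ := by
    intro h
    exact hinj (Finite.injective_iff_surjective.2 h)
  have : ∃ c, ∀ z, φ z ≠ c := by
    by_contra hcon
    push Not at hcon
    exact hsurj hcon
  obtain ⟨c, hc⟩ := this
  refine ⟨c, ?_, ?_, ?_⟩
  · intro h
    exact hc 0 (by rw [h0, h])
  · intro h
    apply hc (N + 1)
    have h2 : φ (N + 1) = (((N : ZMod p) + 1) ^ (N + 1))⁻¹ := by
      simp only [φ]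
      rw [add_sub_cancel_left, one_mul, inv_pow]
    rw [h2]
    exact (eq_inv_of_mul_eq_one_left h).symm
  · intro z h
    have hz : z ≠ 0 := by
      rintro rfl
      apply hN0
      rw [zero_pow (by omega)] at h
      linear_combination h
    apply hc z
    simp only [φ]
    have h3 : z - N = c * z ^ (N + 1) := by linear_combination -h
    rw [h3, mul_assoc, ← mul_pow, mul_inv_cancel₀ hz, one_pow, mul_one]

lemma goodC (p : ℕ) [Fact p.Prime] (N t : ℕ) [NeZero N] (hN : 2 ≤ N) (h0 : ¬ p ∣ N)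
    (h1 : ¬ p ∣ N + 1) :
    Good p (Fin 2 ⊕ (Fin N ⊕ Fin t)) (N + 1) := by
  have hN0 : (N : ZMod p) ≠ 0 := by
    rw [Ne, ZMod.natCast_eq_zero_iff]
    exact h0
  have hN1 : (N : ZMod p) + 1 ≠ 0 := by
    have : ((N + 1 : ℕ) : ZMod p) ≠ 0 := by
      rw [Ne, ZMod.natCast_eq_zero_iff]
      exact h1
    push_cast at this
    exact this
  obtain ⟨c, hc0, hc1, hc2⟩ := exists_coeff p N hN0 hN1
  set K := AlgebraicClosure (ZMod p) with hK
  set g := algebraMap (ZMod p) K with hg
  have ginj : Function.Injective g := g.injective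
  have hN0' : (N : K) ≠ 0 := by
    rw [← map_natCast g]
    exact fun h => hN0 (ginj (h.trans (map_zero g).symm))
  have hN1' : (N : K) + 1 ≠ 0 := by
    intro h
    apply hN1
    apply ginj
    rw [map_add, map_natCast, map_one, map_zero]
    exact h
  have hc0' : g c ≠ 0 := fun h => hc0 (ginj (h.trans (map_zero g).symm))
  have hc1' : g c * ((N : K) + 1) ^ (N + 1) ≠ 1 := by
    intro h
    apply hc1
    apply ginj
    rw [map_mul, map_pow, map_add, map_natCast, map_one]
    exact h
  -- the root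
  have hroot : ∃ z : K, g c * z ^ (N + 1) - z + N = 0 := by
    have hdeg : (C (g c) * X ^ (N + 1) - X + C (N : K) : K[X]).natDegree = N + 1 := by
      rw [natDegree_add_C, natDegree_sub_eq_left_of_natDegree_lt, natDegree_C_mul_X_pow _ _ hc0']
      rw [natDegree_C_mul_X_pow _ _ hc0', natDegree_X]
      omega
    obtain ⟨z, hz⟩ := IsAlgClosed.exists_root (C (g c) * X ^ (N + 1) - X + C (N : K) : K[X]) (by
      intro h
      have := natDegree_eq_zero_iff_degree_le_zero.2 h.le
      rw [hdeg] at this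
      omega)
    refine ⟨z, ?_⟩
    simpa [IsRoot.def] using hz
  obtain ⟨z, hz⟩ := hroot
  have hznot : ∀ a : ZMod p, g a ≠ z := by
    intro a ha
    apply hc2 a
    apply ginj
    rw [map_add, map_sub, map_mul, map_pow, map_natCast, map_zero, ha]
    exact hz
  have hζ : ∃ ζ : K, IsPrimitiveRoot ζ N := by
    have : NeZero (N : ZMod p) := ⟨hN0⟩
    exact HasEnoughRootsOfUnity.exists_primitiveRoot K N
  obtain ⟨ζ, hζ⟩ := hζ
  refine ⟨polyC (ZMod p) N t c, polyC_hom _ N t c, ?_, N + 1, ?_⟩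
  · rw [polyC_map]
    exact smoothC N t hN (g c) hN0' hN1' hc0' hc1'
  · rw [polyC_map]
    refine vfC N t (g c) z ζ (N * (N + 1) + (-1) ^ N * z) hN ?_ hζ hN0' hN1' hz rfl ?_
    · intro h
      apply hznot (-((-1) ^ N * (N * (N + 1))))
      rw [map_neg, map_mul, map_pow, map_neg, map_one, map_mul, map_add, map_natCast, map_one]
      have h2 : ((-1 : K) ^ N) * (-1) ^ N = 1 := by
        rw [← mul_pow, neg_mul_neg, one_mul, one_pow]
      linear_combination (-(-1 : K) ^ N) * h + z * h2
    · intro l hl h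
      apply hznot ((-1) ^ l * ((N + 1) * (N.choose l : ZMod p)))
      rw [map_mul, map_pow, map_neg, map_one, map_mul, map_add, map_natCast, map_natCast, map_one]
      have h2 : ((-1 : K) ^ l) * (-1) ^ l = 1 := by
        rw [← mul_pow, neg_mul_neg, one_mul, one_pow]
      linear_combination ((-1 : K) ^ l) * h + z * h2

end Pool.Agent.SrcFano
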