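import Pool.Agent.SrcFano.CaseA

namespace Pool.Agent.SrcFano

open MvPolynomial in
/-- the family for `p ∤ d (d - 1)`, `d = N + 1` -/
noncomputable def polyC (R : Type*) [CommRing R] (N t : ℕ) [NeZero N] (c : R) :
    MvPolynomial (Fin 2 ⊕ (Fin N ⊕ Fin t)) R :=
  X (Sum.inr (Sum.inl 0)) * X (Sum.inl 0) ^ N
    + C c * X (Sum.inl 1) ^ (N + 1)
    + ∑ i : Fin N, X (Sum.inr (Sum.inl i)) ^ (N + 1)
    - X (Sum.inl 1) * ∏ i : Fin N, X (Sum.inr (Sum.inl i))
    + ∑ j : Fin t, X (Sum.inr (Sum.inr j)) ^ (N + 1)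

lemma polyC_map {R S : Type*} [CommRing R] [CommRing S] (f : R →+* S) (N t : ℕ) [NeZero N]
    (c : R) : (polyC R N t c).map f = polyC S N t (f c) := by
  rw [polyC, polyC]
  simp

lemma polyC_hom (R : Type*) [CommRing R] (N t : ℕ) [NeZero N] (c : R) :
    (polyC R N t c).IsHomogeneous (N + 1) := by
  rw [polyC]
  refine MvPolynomial.IsHomogeneous.add (MvPolynomial.IsHomogeneous.sub
    (MvPolynomial.IsHomogeneous.add (MvPolynomial.IsHomogeneous.add ?_ ?_) ?_) ?_) ?_
  · exact hom_mul_pow _ _ _ _ (by omega)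
  · have h2 := (MvPolynomial.isHomogeneous_C (Fin 2 ⊕ (Fin N ⊕ Fin t)) c).mul
      (hom_pow (R := R) (Sum.inl 1 : Fin 2 ⊕ (Fin N ⊕ Fin t)) (N + 1))
    rwa [zero_add] at h2
  · apply MvPolynomial.IsHomogeneous.sum
    intro j _
    exact hom_pow _ _
  · have h1 : (∏ i : Fin N, MvPolynomial.X (R := R)
        (Sum.inr (Sum.inl i) : Fin 2 ⊕ (Fin N ⊕ Fin t))).IsHomogeneous
        (∑ i : Fin N, 1) :=
      MvPolynomial.IsHomogeneous.prod _ _ _ (fun i _ => MvPolynomial.isHomogeneous_X R _)
    have h2 := (MvPolynomial.isHomogeneous_X R (Sum.inl 1 : Fin 2 ⊕ (Fin N ⊕ Fin t))).mul h1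
    have h3 : 1 + ∑ i : Fin N, 1 = N + 1 := by simp [add_comm]
    rwa [h3] at h2
  · apply MvPolynomial.IsHomogeneous.sum
    intro j _
    exact hom_pow _ _

lemma pderiv_prod_zero {σ ι R : Type*} [CommRing R] (s : Finset ι) (g : ι → σ) (k : σ)
    (h : ∀ i ∈ s, g i ≠ k) :
    MvPolynomial.pderiv k (∏ i ∈ s, MvPolynomial.X (R := R) (g i)) = 0 := by
  classical
  induction s using Finset.induction_on with
  | empty => simp
  | insert a s ha ih =>
    rw [Finset.prod_insert ha, Derivation.leibniz,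
      ih (fun i hi => h i (Finset.mem_insert_of_mem hi)),
      MvPolynomial.pderiv_X_of_ne (h a (Finset.mem_insert_self a s))]
    simp

lemma pderiv_prod_single {σ ι R : Type*} [CommRing R] [Fintype ι] [DecidableEq ι] (g : ι → σ)
    (hg : Function.Injective g) (k : ι) :
    MvPolynomial.pderiv (g k) (∏ i, MvPolynomial.X (R := R) (g i))
      = ∏ i ∈ Finset.univ.erase k, MvPolynomial.X (R := R) (g i) := by
  rw [← Finset.mul_prod_erase Finset.univ (fun i => MvPolynomial.X (R := R) (g i))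
    (Finset.mem_univ k), Derivation.leibniz, pderiv_prod_zero _ g (g k)
    (fun i hi h => (Finset.mem_erase.1 hi).1 (hg h)), MvPolynomial.pderiv_X_self]
  simp

lemma pderiv_sum_pow {σ ι R : Type*} [CommRing R] [Fintype ι] [DecidableEq ι] (g : ι → σ)
    (hg : Function.Injective g) (k : ι) (n : ℕ) :
    MvPolynomial.pderiv (g k) (∑ i, MvPolynomial.X (R := R) (g i) ^ (n + 1))
      = (n + 1) * MvPolynomial.X (R := R) (g k) ^ n := by
  rw [map_sum, Finset.sum_eq_single k]
  · rw [Derivation.leibniz_pow, MvPolynomial.pderiv_X_self]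
    simp
  · intro j _ hj
    rw [Derivation.leibniz_pow, MvPolynomial.pderiv_X_of_ne (fun h => hj (hg h))]
    simp
  · intro h
    exact absurd (Finset.mem_univ k) h

lemma pderiv_sum_pow_zero {σ ι R : Type*} [CommRing R] [Fintype ι] (g : ι → σ)
    (k : σ) (h : ∀ i, g i ≠ k) (n : ℕ) :
    MvPolynomial.pderiv k (∑ i, MvPolynomial.X (R := R) (g i) ^ (n + 1)) = 0 := by
  rw [map_sum]
  apply Finset.sum_eq_zero
  intro j _
  rw [Derivation.leibniz_pow, MvPolynomial.pderiv_X_of_ne (h j)]
  simp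

section

variable {R : Type*} [CommRing R] {S : Type*} [CommRing S] [Algebra R S] (N t : ℕ) [NeZero N]
  (c : R) (φ : Fin 2 ⊕ (Fin N ⊕ Fin t) → S)

lemma polyC_pd0 :
    MvPolynomial.aeval φ (MvPolynomial.pderiv (Sum.inl 0) (polyC R N t c))
    = (N : S) * φ (Sum.inr (Sum.inl 0)) * φ (Sum.inl 0) ^ (N - 1) := by
  rw [polyC]
  rw [map_add, map_sub, map_add, map_add, Derivation.leibniz _ (MvPolynomial.X (Sum.inl 1)),
    pderiv_prod_zero _ (fun i => Sum.inr (Sum.inl i)) _ (fun i _ h => by simp at h),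
    pderiv_sum_pow_zero (fun i : Fin N => Sum.inr (Sum.inl i)) _ (fun i h => by simp at h),
    pderiv_sum_pow_zero (fun i : Fin t => Sum.inr (Sum.inr i)) _ (fun i h => by simp at h)]
  simp [Derivation.leibniz, Derivation.leibniz_pow, MvPolynomial.pderiv_X]
  ring

lemma polyC_pd1 :
    MvPolynomial.aeval φ (MvPolynomial.pderiv (Sum.inl 1) (polyC R N t c))
    = ((N : S) + 1) * algebraMap R S c * φ (Sum.inl 1) ^ N
      - ∏ i : Fin N, φ (Sum.inr (Sum.inl i)) := by
  rw [polyC]
  rw [map_add, map_sub, map_add, map_add, Derivation.leibniz _ (MvPolynomial.X (Sum.inl 1)),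
    pderiv_prod_zero _ (fun i => Sum.inr (Sum.inl i)) _ (fun i _ h => by simp at h),
    pderiv_sum_pow_zero (fun i : Fin N => Sum.inr (Sum.inl i)) _ (fun i h => by simp at h),
    pderiv_sum_pow_zero (fun i : Fin t => Sum.inr (Sum.inr i)) _ (fun i h => by simp at h)]
  simp [Derivation.leibniz, Derivation.leibniz_pow, MvPolynomial.pderiv_X]
  ring

lemma polyC_pdi (i : Fin N) :
    MvPolynomial.aeval φ (MvPolynomial.pderiv (Sum.inr (Sum.inl i)) (polyC R N t c))
    = (if i = 0 then φ (Sum.inl 0) ^ N else 0) + ((N : S) + 1) * φ (Sum.inr (Sum.inl i)) ^ N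
      - φ (Sum.inl 1) * ∏ j ∈ Finset.univ.erase i, φ (Sum.inr (Sum.inl j)) := by
  rw [polyC]
  rw [map_add, map_sub, map_add, map_add, Derivation.leibniz _ (MvPolynomial.X (Sum.inl 1)),
    pderiv_prod_single (fun i => Sum.inr (Sum.inl i)) (fun a b h => by simpa using h) i,
    pderiv_sum_pow (fun i : Fin N => Sum.inr (Sum.inl i)) (fun a b h => by simpa using h) i,
    pderiv_sum_pow_zero (fun i : Fin t => Sum.inr (Sum.inr i)) _ (fun i h => by simp at h)]
  by_cases h : i = 0
  · subst h
    simp [Derivation.leibniz, Derivation.leibniz_pow, MvPolynomial.pderiv_X]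
  · have h' : ¬ (0 : Fin N) = i := fun h2 => h h2.symm
    simp [Derivation.leibniz, Derivation.leibniz_pow, MvPolynomial.pderiv_X, Pi.single_apply, h, h']

lemma polyC_pdt (j : Fin t) :
    MvPolynomial.aeval φ (MvPolynomial.pderiv (Sum.inr (Sum.inr j)) (polyC R N t c))
    = ((N : S) + 1) * φ (Sum.inr (Sum.inr j)) ^ N := by
  rw [polyC]
  rw [map_add, map_sub, map_add, map_add, Derivation.leibniz _ (MvPolynomial.X (Sum.inl 1)),
    pderiv_prod_zero _ (fun i => Sum.inr (Sum.inl i)) _ (fun i _ h => by simp at h),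
    pderiv_sum_pow_zero (fun i : Fin N => Sum.inr (Sum.inl i)) _ (fun i h => by simp at h),
    pderiv_sum_pow (fun i : Fin t => Sum.inr (Sum.inr i)) (fun a b h => by simpa using h) j]
  simp [Derivation.leibniz, Derivation.leibniz_pow, MvPolynomial.pderiv_X]

end

lemma smoothC {K : Type*} [Field K] (N t : ℕ) [NeZero N] (hN : 2 ≤ N) (c : K)
    (hN0 : (N : K) ≠ 0) (hN1 : (N : K) + 1 ≠ 0) (hc0 : c ≠ 0)
    (hc1 : c * ((N : K) + 1) ^ (N + 1) ≠ 1) :
    IsSmoothHypersurface (polyC K N t c) := by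
  intro x hx _
  by_contra hcon
  push Not at hcon
  have hc : ∀ i, MvPolynomial.aeval x (MvPolynomial.pderiv i (polyC K N t c)) = 0 := by
    intro i
    rw [← eval_eq_aeval]
    exact hcon i
  have ht : ∀ j, x (Sum.inr (Sum.inr j)) = 0 := by
    intro j
    have := hc (Sum.inr (Sum.inr j))
    rw [polyC_pdt] at this
    rcases mul_eq_zero.1 this with h | h
    · exact absurd h hN1
    · exact pow_eq_zero_iff (by omega) |>.1 h
  have h1 := hc (Sum.inl 1)
  rw [polyC_pd1] at h1
  have hi : ∀ i, (if i = 0 then x (Sum.inl 0) ^ N else 0)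
      + ((N : K) + 1) * x (Sum.inr (Sum.inl i)) ^ N
      - x (Sum.inl 1) * ∏ j ∈ Finset.univ.erase i, x (Sum.inr (Sum.inl j)) = 0 := by
    intro i
    have := hc (Sum.inr (Sum.inl i))
    rwa [polyC_pdi] at this
  simp only [Algebra.algebraMap_self, RingHom.id_apply] at h1
  -- the final contradiction: all coordinates vanish
  have hfin : x (Sum.inl 0) = 0 → x (Sum.inl 1) = 0 → (∀ i, x (Sum.inr (Sum.inl i)) = 0) →
      False := by
    intro e0 e1 e2
    apply hx
    funext i
    rcases i with i | i | i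
    · fin_cases i
      · exact e0
      · exact e1
    · exact e2 i
    · exact ht i
  by_cases hx0 : x (Sum.inl 0) = 0
  · -- `x = 0`
    set Q := x (Sum.inl 1) * ∏ j : Fin N, x (Sum.inr (Sum.inl j)) with hQ
    have hi' : ∀ i, ((N : K) + 1) * x (Sum.inr (Sum.inl i)) ^ (N + 1) = Q := by
      intro i
      have h2 := hi i
      rw [hx0, zero_pow (by omega), ite_self, zero_add] at h2
      have h3 := Finset.mul_prod_erase Finset.univ (fun j : Fin N => x (Sum.inr (Sum.inl j)))
        (Finset.mem_univ i)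
      rw [hQ, ← h3]
      linear_combination x (Sum.inr (Sum.inl i)) * h2
    have h1' : ((N : K) + 1) * (c * x (Sum.inl 1) ^ (N + 1)) = Q := by
      rw [hQ]
      linear_combination x (Sum.inl 1) * h1
    by_cases hQ0 : Q = 0
    · rw [hQ0] at hi' h1'
      apply hfin hx0
      · rcases mul_eq_zero.1 h1' with h | h
        · exact absurd h hN1
        · rcases mul_eq_zero.1 h with h | h
          · exact absurd h hc0
          · exact pow_eq_zero_iff (by omega) |>.1 h
      · intro i
        rcases mul_eq_zero.1 (hi' i) with h | h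
        · exact absurd h hN1
        · exact pow_eq_zero_iff (by omega) |>.1 h
    · apply hc1
      have h4 : ∏ i : Fin N, (((N : K) + 1) * x (Sum.inr (Sum.inl i)) ^ (N + 1)) = Q ^ N := by
        rw [Finset.prod_congr rfl (fun i _ => hi' i)]
        simp
      rw [Finset.prod_mul_distrib, Finset.prod_pow] at h4
      simp only [Finset.prod_const, Finset.card_univ, Fintype.card_fin] at h4
      have h5 : (c * ((N : K) + 1) ^ (N + 1)) * Q ^ (N + 1) = 1 * Q ^ (N + 1) := by
        rw [one_mul]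
        conv_rhs => rw [pow_succ, ← h4, ← h1']
        rw [hQ, mul_pow]
        ring
      exact mul_right_cancel₀ (pow_ne_zero _ hQ0) h5
  · have h0 := hc (Sum.inl 0)
    rw [polyC_pd0] at h0
    have hX0 : x (Sum.inr (Sum.inl 0)) = 0 := by
      rcases mul_eq_zero.1 h0 with h | h
      · rcases mul_eq_zero.1 h with h | h
        · exact absurd h hN0
        · exact h
      · exact absurd (pow_eq_zero_iff (by omega) |>.1 h) hx0
    have hprod : ∏ i : Fin N, x (Sum.inr (Sum.inl i)) = 0 :=
      Finset.prod_eq_zero (Finset.mem_univ 0) hX0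
    have hX1 : x (Sum.inl 1) = 0 := by
      rw [hprod, sub_zero] at h1
      rcases mul_eq_zero.1 h1 with h | h
      · rcases mul_eq_zero.1 h with h | h
        · exact absurd h hN1
        · exact absurd h hc0
      · exact pow_eq_zero_iff (by omega) |>.1 h
    exfalso
    apply hx0
    have := hi 0
    rw [if_pos rfl, hX0, hX1, zero_pow (by omega), mul_zero, zero_mul, add_zero, sub_zero] at this
    exact pow_eq_zero_iff (by omega) |>.1 this

end Pool.Agent.SrcFano
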