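import Pool.Agent.SrcFano.VF

namespace Pool.Agent.SrcFano

/-- existence of a form over the prime field with the wanted properties, for coordinates in `σ` -/
def Good (p : ℕ) [Fact p.Prime] (σ : Type) [Fintype σ] (d : ℕ) : Prop :=
  ∃ F : MvPolynomial σ (ZMod p), F.IsHomogeneous d ∧
    IsSmoothHypersurface (MvPolynomial.map (algebraMap (ZMod p) (AlgebraicClosure (ZMod p))) F) ∧
    ∃ (e : ℕ) (f : σ → MvPolynomial (Fin 2) (AlgebraicClosure (ZMod p))),
      IsVeryFreeCurve (MvPolynomial.map (algebraMap (ZMod p) (AlgebraicClosure (ZMod p))) F) e f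

lemma smooth_rename {σ τ K : Type*} [Field K] (e : σ ≃ τ) (F : MvPolynomial σ K)
    (h : IsSmoothHypersurface F) : IsSmoothHypersurface (MvPolynomial.rename e F) := by
  intro x hx hF
  rw [MvPolynomial.eval_rename] at hF
  obtain ⟨i, hi⟩ := h (x ∘ e) (by
    intro h0
    apply hx
    funext j
    have := congrFun h0 (e.symm j)
    simpa using this) hF
  refine ⟨e i, ?_⟩
  rw [MvPolynomial.pderiv_rename e.injective, MvPolynomial.eval_rename]
  exact hi

lemma veryFree_rename {σ τ K : Type*} [Fintype σ] [Fintype τ] [Field K] (e : σ ≃ τ)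
    (F : MvPolynomial σ K) (n : ℕ) (f : σ → MvPolynomial (Fin 2) K)
    (h : IsVeryFreeCurve F n f) :
    IsVeryFreeCurve (MvPolynomial.rename e F) n (f ∘ e.symm) := by
  obtain ⟨h1, h2, h3, h4, h5⟩ := h
  have hcomp : (f ∘ e.symm) ∘ e = f := by
    funext j
    simp
  have hD : ∀ i, MvPolynomial.aeval (f ∘ e.symm) (MvPolynomial.pderiv (e i)
      (MvPolynomial.rename e F)) = MvPolynomial.aeval f (MvPolynomial.pderiv i F) := by
    intro i
    rw [MvPolynomial.pderiv_rename e.injective, MvPolynomial.aeval_rename, hcomp]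
  refine ⟨h1, fun i => h2 _, ?_, ?_, ?_⟩
  · intro P hP
    obtain ⟨i, hi⟩ := h3 P hP
    exact ⟨e i, by simpa using hi⟩
  · rw [MvPolynomial.aeval_rename, hcomp]
    exact h4
  · intro P hP v hv
    rw [← e.sum_comp] at hv
    simp_rw [hD] at hv
    obtain ⟨a, c, ha, hs, hval⟩ := h5 P hP (v ∘ e) hv
    refine ⟨a ∘ e.symm, c, fun i => ha _, ?_, ?_⟩
    · rw [← e.sum_comp]
      simp_rw [hD]
      simpa using hs
    · intro i
      have := hval (e.symm i)
      simpa using this

lemma Good.transfer {p : ℕ} [Fact p.Prime] {σ τ : Type} [Fintype σ] [Fintype τ] (e : σ ≃ τ)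
    {d : ℕ} (h : Good p σ d) : Good p τ d := by
  obtain ⟨F, hF, hs, n, f, hf⟩ := h
  refine ⟨MvPolynomial.rename e F, hF.rename_isHomogeneous, ?_, n, f ∘ e.symm, ?_⟩
  · rw [MvPolynomial.map_rename]
    exact smooth_rename e _ hs
  · rw [MvPolynomial.map_rename]
    exact veryFree_rename e _ n f hf

/-- the degree bound needed in `VFData` -/
lemma natDegree_aeval_pderiv {σ K : Type*} [Fintype σ] [Field K] (F : MvPolynomial σ K) (d : ℕ)
    (hF : F.IsHomogeneous d) (φ : σ → Polynomial K) (hφ : ∀ i, (φ i).natDegree ≤ d) (i : σ) :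
    (MvPolynomial.aeval φ (MvPolynomial.pderiv i F)).natDegree ≤ d * (d - 1) := by
  have h1 : (MvPolynomial.pderiv i F).IsHomogeneous (d - 1) := hF.pderiv
  have h2 := MvPolynomial.aeval_natDegree_le (MvPolynomial.pderiv i F) h1.totalDegree_le φ hφ
  rw [mul_comm]
  exact h2

end Pool.Agent.SrcFano
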