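import Pool.Agent.SrcFano.Defs

open Polynomial

namespace Pool.Agent.SrcFano

variable {K : Type*} [Field K]

/-- division step with degree control -/
lemma div_step (A U h : K[X]) (m D : ℕ) (hA : A.natDegree = m) (hm : 1 ≤ m)
    (hcop : IsCoprime A U) (hh : h.natDegree ≤ D) (hU : U.natDegree + (m - 1) ≤ D) :
    ∃ c q : K[X], c.natDegree ≤ m - 1 ∧ q.natDegree ≤ D - m ∧ h = c * U + A * q := by
  obtain ⟨r, s, hrs⟩ := hcop
  have hA0 : A ≠ 0 := by
    rintro rfl
    simp at hA
    omega
  set c := (h * s) % A with hc
  have hcdeg : c.natDegree ≤ m - 1 := by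
    have h1 : c.degree < A.degree := EuclideanDomain.mod_lt _ hA0
    by_cases hc0 : c = 0
    · simp [hc0]
    · have := natDegree_lt_natDegree hc0 h1
      omega
  have hkey : h = c * U + A * (h * r + ((h * s) / A) * U) := by
    have h2 : A * ((h * s) / A) + c = h * s := EuclideanDomain.div_add_mod _ _
    have h3 : c = h * s - A * ((h * s) / A) := by
      rw [eq_sub_iff_add_eq, add_comm]; exact h2
    rw [h3]
    linear_combination (-h) * hrs
  refine ⟨c, h * r + ((h * s) / A) * U, hcdeg, ?_, hkey⟩
  set q := h * r + ((h * s) / A) * U with hq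
  by_cases hq0 : q = 0
  · rw [hq0]; simp
  have h3 : (A * q).natDegree = m + q.natDegree := by
    rw [natDegree_mul hA0 hq0, hA]
  have h4 : (A * q).natDegree ≤ D := by
    have : A * q = h - c * U := by rw [hkey]; ring
    rw [this]
    refine (natDegree_sub_le _ _).trans (max_le hh ?_)
    refine natDegree_mul_le.trans ?_
    omega
  omega

lemma active (d : ℕ) (hd : 2 ≤ d) (A B W : K[X]) (hA : A.natDegree = d - 1)
    (hB : B.natDegree ≤ d) (hAA : IsCoprime A (derivative A)) (hAB : IsCoprime A B)
    (hW : W = A * derivative B - derivative A * B)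
    (h : K[X]) (hh : h.natDegree ≤ 3 * d - 3) :
    ∃ α β γ : K[X], α.natDegree ≤ d - 1 ∧ β.natDegree ≤ d - 1 ∧ γ.natDegree ≤ d - 1 ∧
      α * W + β * (A * B - X * W) + γ * A ^ 2 = h := by
  have hWdeg : W.natDegree ≤ 2 * d - 2 := by
    rw [hW]
    refine (natDegree_sub_le _ _).trans (max_le ?_ ?_)
    · refine natDegree_mul_le.trans ?_
      have := natDegree_derivative_le B
      omega
    · refine natDegree_mul_le.trans ?_
      have := natDegree_derivative_le A
      omega
  have hcopW : IsCoprime A W := by
    have h1 : IsCoprime A (derivative A * B) := IsCoprime.mul_right hAA hAB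
    rw [hW]
    have h2 : A * derivative B - derivative A * B = -(derivative A * B) + A * derivative B := by ring
    rw [h2]
    exact (IsCoprime.neg_right h1).add_mul_left_right _
  obtain ⟨δ, h1, hδ, hh1, he1⟩ := div_step A W h (d - 1) (3 * d - 3) hA (by omega) hcopW hh (by omega)
  obtain ⟨β, γ, hβ, hγ, he2⟩ := div_step A B h1 (d - 1) (2 * d - 2) hA (by omega) hAB (by omega)
    (by omega)
  refine ⟨δ + X * β, β, γ, ?_, by omega, by omega, ?_⟩
  · refine (natDegree_add_le _ _).trans (max_le (by omega) ?_)
    refine natDegree_mul_le.trans ?_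
    have := natDegree_X_le (R := K)
    omega
  · rw [he1, he2]; ring

lemma key_deg (d k : ℕ) (hk : k + 1 ≤ d - 2) :
    (d - 1) * (d - k) + (d - 2) ≤ d * d - 2 - k * (d - 1) := by
  obtain ⟨m, rfl⟩ : ∃ m, d = m + k + 2 := ⟨d - k - 2, by omega⟩
  have e1 : m + k + 2 - 1 = m + k + 1 := by omega
  have e2 : m + k + 2 - k = m + 2 := by omega
  have e3 : m + k + 2 - 2 = m + k := by omega
  rw [e1, e2, e3]
  apply Nat.le_sub_of_add_le
  apply Nat.le_sub_of_add_le
  nlinarith

lemma passive (d : ℕ) (hd : 2 ≤ d) (A : K[X]) (hA : A.natDegree = d - 1) (U : ℕ → K[X])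
    (hU : ∀ l, l < d - 2 → IsCoprime A (U l))
    (hUd : ∀ l, l < d - 2 → (U l).natDegree ≤ (d - 1) * (d - l))
    (h : K[X]) (hh : h.natDegree ≤ d * d - 2) (k : ℕ) (hk : k ≤ d - 2) :
    ∃ (c : ℕ → K[X]) (g : K[X]), (∀ l, (c l).natDegree ≤ d - 2) ∧
      g.natDegree ≤ d * d - 2 - k * (d - 1) ∧
      h = ∑ l ∈ Finset.range k, c l * (A ^ l * U l) + A ^ k * g := by
  induction k with
  | zero => exact ⟨fun _ => 0, h, by simp, by simpa using hh, by simp⟩
  | succ k ih =>
    obtain ⟨c, g, hc, hg, he⟩ := ih (by omega)
    have hUk := hUd k (by omega)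
    have key := key_deg d k hk
    obtain ⟨c', q, hc', hq, he'⟩ := div_step A (U k) g (d - 1) (d * d - 2 - k * (d - 1)) hA (by omega)
      (hU k (by omega)) hg (by
        have : d - 1 - 1 = d - 2 := by omega
        rw [this]; exact (Nat.add_le_add_right hUk _).trans key)
    refine ⟨fun l => if l = k then c' else c l, q, ?_, ?_, ?_⟩
    · intro l
      by_cases hl : l = k
      · simp only [hl, if_true]; omega
      · simp only [hl, if_false]; exact hc l
    · refine hq.trans ?_
      rw [Nat.add_mul, one_mul]
      omega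
    · rw [Finset.sum_range_succ, he, he']
      have : ∑ l ∈ Finset.range k, (if l = k then c' else c l) * (A ^ l * U l)
          = ∑ l ∈ Finset.range k, c l * (A ^ l * U l) := by
        apply Finset.sum_congr rfl
        intro l hl
        rw [if_neg (by rw [Finset.mem_range] at hl; omega)]
      rw [this]
      simp only [if_true]
      ring


variable {ι : Type*} [Fintype ι]

lemma lin_expand (D : ι → K[X]) (u ex ey ew : ι → K) (v : ℕ → ι → K) (c : ℕ → K[X])
    (L α β γ r1 r2 r3 M : K[X]) (k : ℕ) :
    ∑ i, D i * (M * C (u i) - L * ∑ l ∈ Finset.range k, c l * C (v l i)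
      - (α * C (ex i) + β * C (ey i) + γ * C (ew i))
      + (C (ex i) * r1 + C (ey i) * r2 + C (ew i) * r3))
    = M * ∑ i, C (u i) * D i - L * ∑ l ∈ Finset.range k, c l * ∑ i, C (v l i) * D i
      - (α * ∑ i, C (ex i) * D i + β * ∑ i, C (ey i) * D i + γ * ∑ i, C (ew i) * D i)
      + (r1 * ∑ i, C (ex i) * D i + r2 * ∑ i, C (ey i) * D i + r3 * ∑ i, C (ew i) * D i) := by
  have h1 : ∑ l ∈ Finset.range k, c l * ∑ i, C (v l i) * D i
      = ∑ i, D i * ∑ l ∈ Finset.range k, c l * C (v l i) := by
    simp_rw [Finset.mul_sum]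
    rw [Finset.sum_comm]
    apply Finset.sum_congr rfl
    intro i _
    apply Finset.sum_congr rfl
    intro l _
    ring
  rw [h1]
  simp_rw [Finset.mul_sum]
  rw [← Finset.sum_sub_distrib, ← Finset.sum_add_distrib, ← Finset.sum_add_distrib,
    ← Finset.sum_sub_distrib, ← Finset.sum_add_distrib, ← Finset.sum_add_distrib,
    ← Finset.sum_add_distrib]
  apply Finset.sum_congr rfl
  intro i _
  rw [← Finset.mul_sum, ← Finset.mul_sum, ← Finset.mul_sum]
  ring

lemma solve_affine (t a a' b b' α β γ : K)
    (hab : a = 0 → b ≠ 0) (haa : a = 0 → a' ≠ 0)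
    (h : α * (a * b' - a' * b) + β * (a * b - t * (a * b' - a' * b)) + γ * a ^ 2 = 0) :
    ∃ c c' : K, α = c * (t * a) + c' * (a + t * a') ∧ β = c * a + c' * a' ∧
      γ = -(c * b) - c' * b' := by
  by_cases ha : a = 0
  · have hb := hab ha
    have ha' := haa ha
    subst ha
    have h2 : a' * b * (t * β - α) = 0 := by linear_combination h
    have h3 : t * β - α = 0 := by
      rcases mul_eq_zero.1 h2 with h4 | h4
      · rcases mul_eq_zero.1 h4 with h5 | h5
        · exact absurd h5 ha'
        · exact absurd h5 hb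
      · exact h4
    refine ⟨-(γ + β / a' * b') / b, β / a', ?_, ?_, ?_⟩
    · have h6 : β / a' * (t * a') = t * β := by field_simp
      linear_combination -h3 - h6
    · field_simp
      ring
    · field_simp
      ring
  · refine ⟨(β - (α - t * β) / a * a') / a, (α - t * β) / a, ?_, ?_, ?_⟩
    · field_simp
      ring
    · field_simp
      ring
    · have h5 : γ = -(α * (a * b' - a' * b) + β * (a * b - t * (a * b' - a' * b))) / a ^ 2 := by
        field_simp
        linear_combination h
      rw [h5]
      field_simp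
      ring


/-- the data attached to a plane section with a point of multiplicity `d - 1` -/
structure VFData (d : ℕ) (D : ι → K[X]) (ex ey ew : ι → K) (A B : K[X]) : Prop where
  hd : 2 ≤ d
  hA : A.natDegree = d - 1
  hB : B.natDegree ≤ d - 2
  hAA : IsCoprime A (derivative A)
  hAB : IsCoprime A B
  hD : ∀ i, (D i).natDegree ≤ d * (d - 1)
  hx : ∑ i, C (ex i) * D i = A ^ (d - 2) * (A * derivative B - derivative A * B)
  hy : ∑ i, C (ey i) * D i
    = A ^ (d - 2) * (A * B - X * (A * derivative B - derivative A * B))
  hw : ∑ i, C (ew i) * D i = A ^ (d - 2) * A ^ 2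
  hv : ∃ (v : ℕ → ι → K) (U : ℕ → K[X]), ∀ l, l < d - 2 → IsCoprime A (U l) ∧
    (U l).natDegree ≤ (d - 1) * (d - l) ∧ ∑ i, C (v l i) * D i = A ^ l * U l

lemma deg_bound (d : ℕ) (hd : 2 ≤ d) :
    d * d - 2 - (d - 2) * (d - 1) = 3 * d - 4 ∧ d * (d - 1) ≤ d * d - 2 ∧
      d * (d - 1) + (d - 1) = d * d - 1 := by
  obtain ⟨m, rfl⟩ : ∃ m, d = m + 2 := ⟨d - 2, by omega⟩
  have e1 : m + 2 - 2 = m := by omega
  have e2 : m + 2 - 1 = m + 1 := by omega
  rw [e1, e2]
  refine ⟨?_, ?_, ?_⟩
  · have : (m + 2) * (m + 2) = m * (m + 1) + 3 * m + 4 := by ring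
    omega
  · have : (m + 2) * (m + 2) = (m + 2) * (m + 1) + m + 2 := by ring
    omega
  · have : (m + 2) * (m + 2) = (m + 2) * (m + 1) + m + 2 := by ring
    omega

lemma reduce_step {d : ℕ} {D : ι → K[X]} {ex ey ew : ι → K} {A B : K[X]}
    (H : VFData d D ex ey ew A B) (h L : K[X]) (hh : h.natDegree ≤ d * d - 2)
    (hL : L.natDegree ≤ 1) :
    ∃ (v : ℕ → ι → K) (c : ℕ → K[X]) (α β γ g : K[X]), (∀ l, (c l).natDegree ≤ d - 2) ∧
      α.natDegree ≤ d - 1 ∧ β.natDegree ≤ d - 1 ∧ γ.natDegree ≤ d - 1 ∧
      g.natDegree ≤ 3 * d - 4 ∧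
      α * (A * derivative B - derivative A * B)
        + β * (A * B - X * (A * derivative B - derivative A * B)) + γ * A ^ 2 = L * g ∧
      h = ∑ l ∈ Finset.range (d - 2), c l * ∑ i, C (v l i) * D i + A ^ (d - 2) * g := by
  obtain ⟨v, U, hvU⟩ := H.hv
  obtain ⟨c, g, hc, hg, he⟩ := passive d H.hd A H.hA U (fun l hl => (hvU l hl).1)
    (fun l hl => (hvU l hl).2.1) h hh (d - 2) le_rfl
  rw [(deg_bound d H.hd).1] at hg
  have hd := H.hd
  have hB := H.hB
  obtain ⟨α, β, γ, hα, hβ, hγ, he2⟩ := active d H.hd A B _ H.hA (by omega) H.hAA H.hAB rfl (L * g) (by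
    refine natDegree_mul_le.trans ?_
    omega)
  refine ⟨v, c, α, β, γ, g, hc, hα, hβ, hγ, hg, he2, ?_⟩
  rw [he]
  congr 1
  apply Finset.sum_congr rfl
  intro l hl
  rw [(hvU l (by rwa [Finset.mem_range] at hl)).2.2]

lemma vf_affine {d : ℕ} {D : ι → K[X]} {ex ey ew : ι → K} {A B : K[X]}
    (H : VFData d D ex ey ew A B) (t : K) (u : ι → K) (hu : ∑ i, u i * (D i).eval t = 0) :
    ∃ (a : ι → K[X]) (c : K), (∀ i, (a i).natDegree ≤ d - 1) ∧ ∑ i, D i * a i = 0 ∧
      ∀ i, u i = (a i).eval t + c * (C (ex i) * (X * A) + C (ey i) * A - C (ew i) * B).eval t := by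
  have hd := H.hd
  have hA := H.hA
  have hB := H.hB
  set W := A * derivative B - derivative A * B with hW
  set h := ∑ i, C (u i) * D i with hh
  have hroot : h.IsRoot t := by
    rw [IsRoot.def, hh, eval_finsetSum]
    rw [← hu]
    apply Finset.sum_congr rfl
    intro i _
    simp
  obtain ⟨h', hh'⟩ := dvd_iff_isRoot.2 hroot
  have hdegh : h.natDegree ≤ d * (d - 1) := by
    rw [hh]
    apply natDegree_sum_le_of_forall_le
    intro i _
    refine natDegree_mul_le.trans ?_
    rw [natDegree_C, zero_add]
    exact H.hD i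
  have hdegh' : h'.natDegree ≤ d * d - 2 := by
    by_cases h0 : h' = 0
    · rw [h0]; simp
    · have : h.natDegree = 1 + h'.natDegree := by
        rw [hh', natDegree_mul (X_sub_C_ne_zero t) h0, natDegree_X_sub_C]
      have := (deg_bound d hd).2.1
      omega
  obtain ⟨v, c, α, β, γ, g, hc, hα, hβ, hγ, hg, he2, he⟩ :=
    reduce_step H h' (X - C t) hdegh' (by rw [natDegree_X_sub_C])
  -- values at t
  have hval := congrArg (eval t) he2
  simp only [eval_add, eval_mul, eval_sub, eval_pow, eval_X, eval_C, sub_self, zero_mul] at hval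
  obtain ⟨k1, k2, e1, e2, e3⟩ := solve_affine t (A.eval t) ((derivative A).eval t) (B.eval t)
    ((derivative B).eval t) (α.eval t) (β.eval t) (γ.eval t)
    (by
      intro hA0 hB0
      obtain ⟨r, s, hrs⟩ := H.hAB
      have := congrArg (eval t) hrs
      simp [hA0, hB0] at this)
    (by
      intro hA0 hB0
      obtain ⟨r, s, hrs⟩ := H.hAA
      have := congrArg (eval t) hrs
      simp [hA0, hB0] at this)
    hval
  refine ⟨fun i => 1 * C (u i) - (X - C t) * ∑ l ∈ Finset.range (d - 2), c l * C (v l i)
      - (α * C (ex i) + β * C (ey i) + γ * C (ew i))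
      + (C (ex i) * (C k2 * (A + X * derivative A)) + C (ey i) * (C k2 * derivative A)
        + C (ew i) * (-(C k2 * derivative B))), k1, ?_, ?_, ?_⟩
  · intro i
    have hAd := natDegree_derivative_le A
    have hBd := natDegree_derivative_le B
    refine (natDegree_add_le _ _).trans (max_le ?_ ?_)
    · refine (natDegree_sub_le _ _).trans (max_le ?_ ?_)
      · refine (natDegree_sub_le _ _).trans (max_le ?_ ?_)
        · rw [one_mul, natDegree_C]; omega
        · refine natDegree_mul_le.trans ?_
          rw [natDegree_X_sub_C]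
          have : (∑ l ∈ Finset.range (d - 2), c l * C (v l i)).natDegree ≤ d - 2 := by
            apply natDegree_sum_le_of_forall_le
            intro l _
            refine natDegree_mul_le.trans ?_
            rw [natDegree_C, add_zero]
            exact hc l
          omega
      · refine (natDegree_add_le _ _).trans (max_le ?_ ?_)
        · refine (natDegree_add_le _ _).trans (max_le ?_ ?_)
          · refine natDegree_mul_le.trans ?_
            rw [natDegree_C, add_zero]; exact hα
          · refine natDegree_mul_le.trans ?_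
            rw [natDegree_C, add_zero]; exact hβ
        · refine natDegree_mul_le.trans ?_
          rw [natDegree_C, add_zero]; exact hγ
    · refine (natDegree_add_le _ _).trans (max_le ?_ ?_)
      · refine (natDegree_add_le _ _).trans (max_le ?_ ?_)
        · refine natDegree_mul_le.trans ?_
          rw [natDegree_C, zero_add]
          refine natDegree_mul_le.trans ?_
          rw [natDegree_C, zero_add]
          refine (natDegree_add_le _ _).trans (max_le (by omega) ?_)
          refine natDegree_mul_le.trans ?_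
          have := natDegree_X_le (R := K)
          omega
        · refine natDegree_mul_le.trans ?_
          rw [natDegree_C, zero_add]
          refine natDegree_mul_le.trans ?_
          rw [natDegree_C, zero_add]
          omega
      · refine natDegree_mul_le.trans ?_
        rw [natDegree_C, zero_add, natDegree_neg]
        refine natDegree_mul_le.trans ?_
        rw [natDegree_C, zero_add]
        omega
  · rw [lin_expand, H.hx, H.hy, H.hw, ← hW, ← hh, hh', he]
    linear_combination (-A ^ (d - 2)) * he2
  · intro i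
    simp only [eval_add, eval_sub, eval_mul, eval_C, eval_X, eval_neg, sub_self, zero_mul,
      one_mul]
    rw [e1, e2, e3]
    ring


lemma coeff_X_mul_der (P : K[X]) (k : ℕ) : (X * derivative P).coeff k = k * P.coeff k := by
  cases k with
  | zero => simp
  | succ k =>
    rw [coeff_X_mul, coeff_derivative]
    push_cast
    ring

lemma euler_deg (P : K[X]) (m : ℕ) (hP : P.natDegree ≤ m) :
    (C (m : K) * P - X * derivative P).natDegree ≤ m - 1 := by
  rw [natDegree_le_iff_coeff_eq_zero]
  intro N hN
  rw [coeff_sub, coeff_C_mul, coeff_X_mul_der]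
  by_cases h : N = m
  · rw [h]; ring
  · have : P.coeff N = 0 := coeff_eq_zero_of_natDegree_lt (by omega)
    rw [this]; ring

lemma vf_infty {d : ℕ} {D : ι → K[X]} {ex ey ew : ι → K} {A B : K[X]}
    (H : VFData d D ex ey ew A B) (u : ι → K)
    (hu : ∑ i, u i * (D i).coeff (d * (d - 1)) = 0) :
    ∃ (a : ι → K[X]) (c : K), (∀ i, (a i).natDegree ≤ d - 1) ∧ ∑ i, D i * a i = 0 ∧
      ∀ i, u i = (a i).coeff (d - 1)
        + c * (C (ex i) * (X * A) + C (ey i) * A - C (ew i) * B).coeff d := by
  have hd := H.hd
  have hA := H.hA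
  have hB := H.hB
  obtain ⟨-, hb2, hb3⟩ := deg_bound d hd
  set W := A * derivative B - derivative A * B with hW
  set h := ∑ i, C (u i) * D i with hh
  have hdegh : h.natDegree ≤ d * (d - 1) := by
    rw [hh]
    apply natDegree_sum_le_of_forall_le
    intro i _
    refine natDegree_mul_le.trans ?_
    rw [natDegree_C, zero_add]
    exact H.hD i
  have hcoef : h.coeff (d * (d - 1)) = 0 := by
    rw [hh, finsetSum_coeff, ← hu]
    apply Finset.sum_congr rfl
    intro i _
    rw [coeff_C_mul]
  have hdegh' : (X ^ (d - 1) * h).natDegree ≤ d * d - 2 := by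
    by_cases h0 : h = 0
    · rw [h0]; simp
    · have h1 : h.natDegree ≠ d * (d - 1) := by
        intro h2
        rw [← h2] at hcoef
        exact h0 (leadingCoeff_eq_zero.1 hcoef)
      refine natDegree_mul_le.trans ?_
      rw [natDegree_X_pow]
      omega
  obtain ⟨v, c, α, β, γ, g, hc, hα, hβ, hγ, hg, he2, he⟩ :=
    reduce_step H (X ^ (d - 1) * h) 1 hdegh' (by rw [natDegree_one]; omega)
  rw [one_mul] at he2
  have hA0 : A ≠ 0 := by
    rintro rfl
    simp at hA
    omega
  have hlead : A.coeff (d - 1) ≠ 0 := by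
    rw [← hA]; exact leadingCoeff_ne_zero.2 hA0
  have hWdeg : W.natDegree ≤ 2 * d - 4 := by
    have h1 := natDegree_derivative_le A
    have h2 := natDegree_derivative_le B
    rw [hW]
    refine (natDegree_sub_le _ _).trans (max_le ?_ ?_)
    · by_cases h3 : B.natDegree = 0
      · rw [eq_C_of_natDegree_eq_zero h3]
        simp
      · refine natDegree_mul_le.trans ?_
        omega
    · refine natDegree_mul_le.trans ?_
      omega
  have hγ0 : γ.coeff (d - 1) = 0 := by
    by_cases h0 : γ = 0
    · rw [h0]; simp
    · have h1 : (γ * A ^ 2).natDegree = γ.natDegree + 2 * (d - 1) := by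
        rw [natDegree_mul h0 (pow_ne_zero _ hA0), natDegree_pow, hA]
      have h2 : (γ * A ^ 2).natDegree ≤ 3 * d - 4 := by
        have h3 : γ * A ^ 2 = g - (α * W + β * (A * B - X * W)) := by
          rw [← he2]; ring
        rw [h3]
        refine (natDegree_sub_le _ _).trans (max_le hg ?_)
        refine (natDegree_add_le _ _).trans (max_le ?_ ?_)
        · refine natDegree_mul_le.trans ?_
          omega
        · refine natDegree_mul_le.trans ?_
          have h4 : (A * B - X * W).natDegree ≤ 2 * d - 3 := by
            refine (natDegree_sub_le _ _).trans (max_le ?_ ?_)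
            · refine natDegree_mul_le.trans ?_
              omega
            · refine natDegree_mul_le.trans ?_
              rw [natDegree_X]
              omega
          omega
      apply coeff_eq_zero_of_natDegree_lt
      omega
  have hBc : ∀ k, d - 2 < k → B.coeff k = 0 := fun k hk =>
    coeff_eq_zero_of_natDegree_lt (lt_of_le_of_lt hB hk)
  set k2 := β.coeff (d - 1) / A.coeff (d - 1) with hk2
  set k1 := (α.coeff (d - 1) - k2 * A.coeff (d - 2)) / A.coeff (d - 1) with hk1
  have hk1' : k1 * A.coeff (d - 1) = α.coeff (d - 1) - k2 * A.coeff (d - 2) := by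
    rw [hk1]; field_simp
  have hk2' : k2 * A.coeff (d - 1) = β.coeff (d - 1) := by
    rw [hk2]; field_simp
  have hdm : ((d - 1 : ℕ) : K) = (d : K) - 1 := by
    rw [Nat.cast_sub (by omega)]; simp
  set E := C ((d - 1 : ℕ) : K) * A - X * derivative A with hE
  have hEdeg : E.natDegree ≤ d - 2 := by
    have := euler_deg A (d - 1) (by omega)
    rw [← hE] at this
    omega
  have hEc : E.coeff (d - 2) = A.coeff (d - 2) := by
    rw [hE, coeff_sub, coeff_C_mul, coeff_X_mul_der, hdm]
    have : ((d - 2 : ℕ) : K) = (d : K) - 2 := by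
      rw [Nat.cast_sub (by omega)]; simp
    rw [this]
    ring
  refine ⟨fun i => X ^ (d - 1) * C (u i) - 1 * ∑ l ∈ Finset.range (d - 2), c l * C (v l i)
      - (α * C (ex i) + β * C (ey i) + γ * C (ew i))
      + (C (ex i) * (C k2 * (X * E)) + C (ey i) * (C k2 * (E + A))
        + C (ew i) * (-(C k2 * (C (d : K) * B - X * derivative B)))), k1, ?_, ?_, ?_⟩
  · intro i
    have hAd := natDegree_derivative_le A
    have hBd := natDegree_derivative_le B
    refine (natDegree_add_le _ _).trans (max_le ?_ ?_)
    · refine (natDegree_sub_le _ _).trans (max_le ?_ ?_)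
      · refine (natDegree_sub_le _ _).trans (max_le ?_ ?_)
        · refine natDegree_mul_le.trans ?_
          rw [natDegree_X_pow, natDegree_C]
          omega
        · rw [one_mul]
          have : (∑ l ∈ Finset.range (d - 2), c l * C (v l i)).natDegree ≤ d - 2 := by
            apply natDegree_sum_le_of_forall_le
            intro l _
            refine natDegree_mul_le.trans ?_
            rw [natDegree_C, add_zero]
            exact hc l
          omega
      · refine (natDegree_add_le _ _).trans (max_le ?_ ?_)
        · refine (natDegree_add_le _ _).trans (max_le ?_ ?_)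
          · refine natDegree_mul_le.trans ?_
            rw [natDegree_C, add_zero]; exact hα
          · refine natDegree_mul_le.trans ?_
            rw [natDegree_C, add_zero]; exact hβ
        · refine natDegree_mul_le.trans ?_
          rw [natDegree_C, add_zero]; exact hγ
    · refine (natDegree_add_le _ _).trans (max_le ?_ ?_)
      · refine (natDegree_add_le _ _).trans (max_le ?_ ?_)
        · refine natDegree_mul_le.trans ?_
          rw [natDegree_C, zero_add]
          refine natDegree_mul_le.trans ?_
          rw [natDegree_C, zero_add]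
          refine natDegree_mul_le.trans ?_
          rw [natDegree_X]
          omega
        · refine natDegree_mul_le.trans ?_
          rw [natDegree_C, zero_add]
          refine natDegree_mul_le.trans ?_
          rw [natDegree_C, zero_add]
          refine (natDegree_add_le _ _).trans (max_le ?_ ?_) <;> omega
      · refine natDegree_mul_le.trans ?_
        rw [natDegree_C, zero_add, natDegree_neg]
        refine natDegree_mul_le.trans ?_
        rw [natDegree_C, zero_add]
        refine (natDegree_sub_le _ _).trans (max_le ?_ ?_)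
        · refine natDegree_mul_le.trans ?_
          rw [natDegree_C, zero_add]
          omega
        · by_cases h3 : B.natDegree = 0
          · rw [eq_C_of_natDegree_eq_zero h3]
            simp
          · refine natDegree_mul_le.trans ?_
            rw [natDegree_X]
            omega
  · rw [lin_expand, H.hx, H.hy, H.hw, ← hW, ← hh, he, hE, hdm]
    simp only [map_sub, map_one]
    have e5 : (C (d : K) : K[X]) * 0 = 0 := mul_zero _
    linear_combination (-A ^ (d - 2)) * he2
  · intro i
    have hc1 : (∑ l ∈ Finset.range (d - 2), c l * C (v l i)).coeff (d - 1) = 0 := by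
      apply coeff_eq_zero_of_natDegree_lt
      have : (∑ l ∈ Finset.range (d - 2), c l * C (v l i)).natDegree ≤ d - 2 := by
        apply natDegree_sum_le_of_forall_le
        intro l _
        refine natDegree_mul_le.trans ?_
        rw [natDegree_C, add_zero]
        exact hc l
      omega
    have hc2 : (X * E).coeff (d - 1) = A.coeff (d - 2) := by
      have : d - 1 = (d - 2) + 1 := by omega
      rw [this, coeff_X_mul, hEc]
    have hc3 : E.coeff (d - 1) = 0 := coeff_eq_zero_of_natDegree_lt (by omega)
    have hc4 : (X * A).coeff d = A.coeff (d - 1) := by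
      obtain ⟨m, rfl⟩ : ∃ m, d = m + 1 := ⟨d - 1, by omega⟩
      rw [coeff_X_mul]; rfl
    have hc5 : A.coeff d = 0 := coeff_eq_zero_of_natDegree_lt (by omega)
    simp only [coeff_add, coeff_sub, coeff_neg, coeff_C_mul, coeff_mul_C, one_mul, hc1, hc2, hc3,
      hc4, hc5, hγ0, hBc d (by omega), coeff_X_mul_der, hBc (d - 1) (by omega), coeff_X_pow,
      if_true]
    linear_combination (-ex i) * hk1' - ey i * hk2'


end Pool.Agent.SrcFano

namespace Pool.Agent.SrcFano

lemma eval_homogenize_infty {K : Type*} [Field K] (p : K[X]) (n : ℕ) (P : Fin 2 → K)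
    (hP : P 1 = 0) : MvPolynomial.eval P (p.homogenize n) = p.coeff n * P 0 ^ n := by
  rw [homogenize, MvPolynomial.eval_sum]
  rw [Finset.sum_eq_single (n, 0)]
  · rw [MvPolynomial.eval_monomial]
    simp [Finsupp.prod_fintype, Fin.prod_univ_two]
  · rintro ⟨k, l⟩ hkl hne
    have hl : l ≠ 0 := by
      rintro rfl
      simp at hkl
      exact hne (by rw [hkl])
    rw [MvPolynomial.eval_monomial]
    simp [Finsupp.prod_fintype, Fin.prod_univ_two, hP, hl]
  · intro h
    simp at h

lemma veryFree_of_data {σ K : Type*} [Fintype σ] [Field K] (F : MvPolynomial σ K) (d : ℕ)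
    (hF : F.IsHomogeneous d) (ex ey ew : σ → K) (A B : K[X]) (φ : σ → K[X])
    (hφ : ∀ i, φ i = C (ex i) * (X * A) + C (ey i) * A - C (ew i) * B)
    (hF0 : MvPolynomial.aeval φ F = 0)
    (H : VFData d (fun i => MvPolynomial.aeval φ (MvPolynomial.pderiv i F)) ex ey ew A B) :
    IsVeryFreeCurve F d (fun i => (φ i).homogenize d) := by
  have hd := H.hd
  have hA := H.hA
  have hB := H.hB
  obtain ⟨-, hb2, hb3⟩ := deg_bound d hd
  have hφd : ∀ i, (φ i).natDegree ≤ d := by
    intro i
    rw [hφ]
    refine (natDegree_sub_le _ _).trans (max_le ?_ ?_)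
    · refine (natDegree_add_le _ _).trans (max_le ?_ ?_)
      · refine natDegree_mul_le.trans ?_
        rw [natDegree_C, zero_add]
        refine natDegree_mul_le.trans ?_
        rw [natDegree_X]
        omega
      · refine natDegree_mul_le.trans ?_
        rw [natDegree_C, zero_add]
        omega
    · refine natDegree_mul_le.trans ?_
      rw [natDegree_C, zero_add]
      omega
  set f : σ → MvPolynomial (Fin 2) K := fun i => (φ i).homogenize d with hf
  have hfh : ∀ i, (f i).IsHomogeneous d := fun i => isHomogeneous_homogenize _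
  have key : ∀ (G : MvPolynomial σ K) (m : ℕ), G.IsHomogeneous m →
      MvPolynomial.aeval f G = (MvPolynomial.aeval φ G).homogenize (d * m) := by
    intro G m hG
    symm
    apply homogenize_eq_of_isHomogeneous (hG.aeval f hfh)
    rw [← AlgHom.comp_apply]
    congr 1
    apply MvPolynomial.algHom_ext
    intro i
    rw [AlgHom.comp_apply, MvPolynomial.aeval_X, MvPolynomial.aeval_X, hf]
    exact aeval_homogenize_X_one _ (hφd i)
  set D : σ → K[X] := fun i => MvPolynomial.aeval φ (MvPolynomial.pderiv i F) with hD
  have hDf : ∀ i, MvPolynomial.aeval f (MvPolynomial.pderiv i F)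
      = (D i).homogenize (d * (d - 1)) := fun i => key _ _ hF.pderiv
  have hprod : ∀ a : σ → K[X], (∀ i, (a i).natDegree ≤ d - 1) → ∑ i, D i * a i = 0 →
      ∑ i, (D i).homogenize (d * (d - 1)) * (a i).homogenize (d - 1) = 0 := by
    intro a ha h0
    have h1 : ∀ i, (D i).homogenize (d * (d - 1)) * (a i).homogenize (d - 1)
        = (D i * a i).homogenize (d * (d - 1) + (d - 1)) :=
      fun i => (homogenize_mul _ _ (H.hD i) (ha i)).symm
    simp_rw [h1]
    rw [← homogenize_finsetSum, h0, homogenize_zero]
  have hP0 : ∀ P : Fin 2 → K, P ≠ 0 → P 1 = 0 → P 0 ≠ 0 := by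
    intro P hP h1 h0
    apply hP
    funext i
    fin_cases i
    · exact h0
    · exact h1
  have hA0 : A ≠ 0 := by
    rintro rfl
    simp at hA
    omega
  have hlead : A.coeff (d - 1) ≠ 0 := by
    rw [← hA]; exact leadingCoeff_ne_zero.2 hA0
  have hAd : A ^ (d - 2) * A ^ 2 = A ^ d := by
    rw [← pow_add]; congr 1; omega
  have hew : ∃ i, ew i ≠ 0 := by
    by_contra hcon
    push Not at hcon
    have h1 := H.hw
    rw [hAd] at h1
    have h2 : ∑ i, C (ew i) * D i = 0 := by
      apply Finset.sum_eq_zero
      intro i _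
      rw [hcon i, C_0, zero_mul]
    rw [h2] at h1
    exact pow_ne_zero d hA0 h1.symm
  have hAdeg : (A ^ d).natDegree = d * (d - 1) := by rw [natDegree_pow, hA]
  have hwh : ∑ i, MvPolynomial.C (ew i) * (D i).homogenize (d * (d - 1))
      = (A ^ d).homogenize (d * (d - 1)) := by
    rw [← hAd, ← H.hw, homogenize_finsetSum]
    apply Finset.sum_congr rfl
    intro i _
    rw [homogenize_C_mul]
  refine ⟨by omega, hfh, ?_, ?_, ?_⟩
  · -- no base points
    intro P hP
    by_contra hcon
    push Not at hcon
    have hDP : ∀ i, MvPolynomial.eval P ((D i).homogenize (d * (d - 1))) = 0 := by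
      intro i
      rw [← hDf i]
      have h1 : MvPolynomial.eval P (MvPolynomial.aeval f (MvPolynomial.pderiv i F))
          = MvPolynomial.eval (fun j => MvPolynomial.eval P (f j)) (MvPolynomial.pderiv i F) := by
        rw [← MvPolynomial.coe_aeval_eq_eval, ← MvPolynomial.coe_aeval_eq_eval]
        simp only [RingHom.coe_coe]
        rw [← AlgHom.comp_apply]
        congr 1
        apply MvPolynomial.algHom_ext
        intro j
        simp
      rw [h1]
      have h2 : (fun j => MvPolynomial.eval P (f j)) = 0 := by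
        funext j
        exact hcon j
      rw [h2, MvPolynomial.eval_zero, MvPolynomial.constantCoeff_eq]
      apply (hF.pderiv (i := i)).coeff_eq_zero
      have h3 : (0 : σ →₀ ℕ).degree = 0 := by simp
      rw [h3]
      omega
    have hAP : MvPolynomial.eval P ((A ^ d).homogenize (d * (d - 1))) = 0 := by
      rw [← hwh, map_sum]
      apply Finset.sum_eq_zero
      intro i _
      rw [map_mul, hDP i, mul_zero]
    by_cases h1 : P 1 = 0
    · have h0 := hP0 P hP h1
      rw [eval_homogenize_infty _ _ _ h1] at hAP
      rcases mul_eq_zero.1 hAP with h3 | h3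
      · rw [← hAdeg] at h3
        exact pow_ne_zero d hA0 (leadingCoeff_eq_zero.1 h3)
      · exact pow_ne_zero _ h0 h3
    · rw [eval_homogenize hAdeg.le _ h1] at hAP
      rcases mul_eq_zero.1 hAP with h3 | h3
      · rw [eval_pow] at h3
        have h4 : A.eval (P 0 / P 1) = 0 := pow_eq_zero_iff (by omega) |>.1 h3
        obtain ⟨i, hi⟩ := hew
        have h5 := hcon i
        rw [hf] at h5
        simp only at h5
        rw [eval_homogenize (hφd i) _ h1] at h5
        rcases mul_eq_zero.1 h5 with h6 | h6
        · rw [hφ i] at h6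
          simp only [eval_sub, eval_add, eval_mul, eval_C, eval_X, h4, mul_zero,
            zero_sub, neg_eq_zero, add_zero] at h6
          rcases mul_eq_zero.1 h6 with h7 | h7
          · exact hi h7
          · obtain ⟨r, s, hrs⟩ := H.hAB
            have := congrArg (eval (P 0 / P 1)) hrs
            simp [h4, h7] at this
        · exact pow_ne_zero _ h1 h6
      · exact pow_ne_zero _ h1 h3
  · rw [key F d hF, hF0, homogenize_zero]
  · intro P hP v hv
    simp_rw [hDf] at hv ⊢
    by_cases h1 : P 1 = 0
    · have h0 := hP0 P hP h1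
      have hv' : ∑ i, v i * (D i).coeff (d * (d - 1)) = 0 := by
        have h2 : (∑ i, v i * (D i).coeff (d * (d - 1))) * P 0 ^ (d * (d - 1)) = 0 := by
          rw [Finset.sum_mul, ← hv]
          apply Finset.sum_congr rfl
          intro i _
          rw [eval_homogenize_infty _ _ _ h1]
          ring
        rcases mul_eq_zero.1 h2 with h3 | h3
        · exact h3
        · exact absurd h3 (pow_ne_zero _ h0)
      obtain ⟨a, c, ha, hsum, hval⟩ := vf_infty H v hv'
      refine ⟨fun i => (C ((P 0 ^ (d - 1))⁻¹) * a i).homogenize (d - 1), c / P 0 ^ d,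
        fun i => isHomogeneous_homogenize _, ?_, ?_⟩
      · apply hprod
        · intro i
          exact (natDegree_C_mul_le _ _).trans (ha i)
        · have : ∀ i, D i * (C ((P 0 ^ (d - 1))⁻¹) * a i)
              = C ((P 0 ^ (d - 1))⁻¹) * (D i * a i) := fun i => by ring
          simp_rw [this]
          rw [← Finset.mul_sum, hsum, mul_zero]
      · intro i
        rw [hval i, hf, eval_homogenize_infty _ _ _ h1, eval_homogenize_infty _ _ _ h1,
          coeff_C_mul, hφ i]
        have h2 : P 0 ^ (d - 1) ≠ 0 := pow_ne_zero _ h0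
        have h3 : P 0 ^ d ≠ 0 := pow_ne_zero _ h0
        field_simp
    · have hv' : ∑ i, v i * (D i).eval (P 0 / P 1) = 0 := by
        have h2 : (∑ i, v i * (D i).eval (P 0 / P 1)) * P 1 ^ (d * (d - 1)) = 0 := by
          rw [Finset.sum_mul, ← hv]
          apply Finset.sum_congr rfl
          intro i _
          rw [eval_homogenize (H.hD i) _ h1]
          ring
        rcases mul_eq_zero.1 h2 with h3 | h3
        · exact h3
        · exact absurd h3 (pow_ne_zero _ h1)
      obtain ⟨a, c, ha, hsum, hval⟩ := vf_affine H (P 0 / P 1) v hv'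
      refine ⟨fun i => (C ((P 1 ^ (d - 1))⁻¹) * a i).homogenize (d - 1), c / P 1 ^ d,
        fun i => isHomogeneous_homogenize _, ?_, ?_⟩
      · apply hprod
        · intro i
          exact (natDegree_C_mul_le _ _).trans (ha i)
        · have : ∀ i, D i * (C ((P 1 ^ (d - 1))⁻¹) * a i)
              = C ((P 1 ^ (d - 1))⁻¹) * (D i * a i) := fun i => by ring
          simp_rw [this]
          rw [← Finset.mul_sum, hsum, mul_zero]
      · intro i
        rw [hval i, hf, eval_homogenize ((natDegree_C_mul_le _ _).trans (ha i)) _ h1,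
          eval_homogenize (hφd i) _ h1, eval_mul, eval_C, hφ i]
        have h2 : P 1 ^ (d - 1) ≠ 0 := pow_ne_zero _ h1
        have h3 : P 1 ^ d ≠ 0 := pow_ne_zero _ h1
        generalize eval (P 0 / P 1) (a i) = s1
        generalize eval (P 0 / P 1) (C (ex i) * (X * A) + C (ey i) * A - C (ew i) * B) = s2
        field_simp

end Pool.Agent.SrcFano
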